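import Pool.Agent.L7h45.PI.Spec

/-!
# The component criterion: proof
-/

set_option autoImplicit false
set_option linter.unusedSectionVars false
set_option linter.unusedVariables false

open Set Filter Topology Metric
open scoped ContDiff ComplexConjugate

noncomputable section

namespace Pool.Agent.L7h45.PI

open Pool.Agent.L7h32.AA Pool.Agent.L7h32.PI

section gen

variable {E : Type} [NormedAddCommGroup E] [NormedSpace ℝ E] [FiniteDimensional ℝ E]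
  {K U : Set E} {N : E → E}

theorem smIso_congr {f g f' g' : E → E} (h : SmIso K f g) (hf : ∀ x ∈ K, f x = f' x)
    (hg : ∀ x ∈ K, g x = g' x) : SmIso K f' g' := by
  obtain ⟨M, m1, m2, m3, m4⟩ := h
  exact ⟨M, m1, m2, fun x hx => (m3 x hx).trans (hf x hx), fun x hx => (m4 x hx).trans (hg x hx)⟩

theorem smIso_iso (hR : Ret K U N) {f g : E → E} (h : SmIso K f g) : Iso K U N f g := by
  obtain ⟨M, m1, m2, m3, m4⟩ := h
  refine ⟨fun t x => M (t, x), ?_, fun t => ⟨(m2 t).emb hR, (m2 t).2.1⟩, m3, m4⟩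
  refine m1.comp_contDiffOn (ContDiffOn.prodMk contDiff_fst.contDiffOn ?_)
  exact hR.smooth.comp contDiff_snd.contDiffOn fun p hp => hp.2

theorem smIso_trans (hR : Ret K U N) (hK : IsPreconnected K) {f g h : E → E} (h1 : SmIso K f g)
    (h2 : SmIso K g h) : SmIso K f h :=
  smIso_of hR hK ((Pool.Agent.L7h65.PI.s_TRANS E K U N f g h hR).1 (smIso_iso hR h1) (smIso_iso hR h2))

/-- the end map of a smooth isotopy -/
theorem smIso_right {f g : E → E} (h : SmIso K f g) : ∃ g', IsDiff K g' ∧ ∀ x ∈ K, g' x = g x := by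
  obtain ⟨M, m1, m2, m3, m4⟩ := h
  exact ⟨_, m2 1, m4⟩

theorem isDiff_congr {f g : E → E} (h : IsDiff K f) (hg : ContDiff ℝ ∞ g) (hfg : ∀ x ∈ K, f x = g x) :
    IsDiff K g := by
  obtain ⟨h1, h2, G, h3, h4⟩ := h
  refine ⟨hg, fun x hx => by rw [← hfg x hx]; exact h2 x hx, G, h3, fun x hx =>
    ⟨(h4 x hx).1, ?_, ?_⟩⟩
  · rw [← hfg x hx]; exact (h4 x hx).2.1
  · rw [← hfg _ (h4 x hx).1]; exact (h4 x hx).2.2

theorem preconn_const {X : Type} [PseudoMetricSpace X] {C : Set X} (hC : IsPreconnected C)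
    {P : X → Prop} (h : ∀ x ∈ C, ∃ ε : ℝ, 0 < ε ∧ ∀ y ∈ C, dist y x < ε → (P x ↔ P y)) {x y : X}
    (hx : x ∈ C) (hy : y ∈ C) (hP : P x) : P y := by
  by_contra hcon
  choose! ε hε h1 using h
  obtain ⟨z, hz, hz1, hz2⟩ := hC (⋃ s ∈ {s | s ∈ C ∧ P s}, ball s (ε s))
    (⋃ s ∈ {s | s ∈ C ∧ ¬ P s}, ball s (ε s)) (isOpen_biUnion fun _ _ => isOpen_ball)
    (isOpen_biUnion fun _ _ => isOpen_ball) (fun s hs => by
      by_cases hPs : P s
      · exact Or.inl (mem_biUnion (show s ∈ {s | s ∈ C ∧ P s} from ⟨hs, hPs⟩)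
          (mem_ball_self (hε s hs)))
      · exact Or.inr (mem_biUnion (show s ∈ {s | s ∈ C ∧ ¬ P s} from ⟨hs, hPs⟩)
          (mem_ball_self (hε s hs))))
    ⟨x, hx, mem_biUnion (show x ∈ {s | s ∈ C ∧ P s} from ⟨hx, hP⟩) (mem_ball_self (hε x hx))⟩
    ⟨y, hy, mem_biUnion (show y ∈ {s | s ∈ C ∧ ¬ P s} from ⟨hy, hcon⟩) (mem_ball_self (hε y hy))⟩
  obtain ⟨s, hs, hzs⟩ := mem_iUnion₂.1 hz1
  obtain ⟨s', hs', hzs'⟩ := mem_iUnion₂.1 hz2
  have a1 := (h1 s hs.1 z hz hzs).1 hs.2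
  exact hs'.2 ((h1 s' hs'.1 z hz hzs').2 a1)

end gen

theorem ind_iso {Φ₀ Φ₁ : V3 → V3} (h0 : Homog Φ₀) (h1 : Homog Φ₁) (hN : NoNeg Φ₀ Φ₁)
    (hinj : InjOn (ind Φ₀) CP2) : SmIso CP2 (ind Φ₀) (ind Φ₁) := by
  obtain ⟨U, N, hR⟩ := Pool.Agent.L7h50.PI.s_CPR
  have e0 : ∀ P ∈ CP2, PP Φ₀ Φ₁ N (0, P) = ind Φ₀ P := by
    intro P hP
    simp [PP, psi, ind, hR.fix P hP]
  have e1 : ∀ P ∈ CP2, PP Φ₀ Φ₁ N (1, P) = ind Φ₁ P := by
    intro P hP
    simp [PP, psi, ind, hR.fix P hP]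
  refine smIso_congr (hom_iso hR h0 h1 hN ?_) e0 e1
  intro x hx y hy hxy
  refine hinj hx hy ?_
  rw [← e0 x hx, ← e0 y hy]
  exact hxy

/-- the good matrices -/
def Good (Φ : V3 → V3) (A : V3 →L[ℂ] V3) : Prop := SmIso CP2 (fun P => P) (ind (sub Φ A))

theorem inj_of_iso {f g : M3 → M3} (h : SmIso CP2 f g) : InjOn g CP2 := by
  obtain ⟨g', ⟨_, _, G, _, hG⟩, hg⟩ := smIso_right h
  intro x hx y hy hxy
  rw [← (hG x hx).2.1, hg x hx, hxy, ← hg y hy, (hG y hy).2.1]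

theorem good_step {Φ : V3 → V3} (h : Homog Φ) {A B : V3 →L[ℂ] V3} (hA : Good Φ A)
    (hN : NoNeg (sub Φ A) (sub Φ B)) : Good Φ B := by
  obtain ⟨U, N, hR⟩ := Pool.Agent.L7h50.PI.s_CPR
  exact smIso_trans hR Pool.Agent.L7h50.PI.s_CPC.1 hA
    (ind_iso (homog_sub h A) (homog_sub h B) hN (inj_of_iso hA))

theorem ind_congr {Ψ Ψ' : V3 → V3} {l : ℂ} (hl : l ≠ 0) (h : ∀ z, Ψ' z = l • Ψ z) (P : M3) :
    ind Ψ P = ind Ψ' P := by
  rw [ind, ind, h, pr_smul hl]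

/-- matrices far away are good -/
theorem good_far {Φ : V3 → V3} (h : Homog Φ) {C R : ℝ}
    (hC : ∀ z : V3, z ≠ 0 → ∀ v, ‖fderiv ℝ Φ z v‖ ≤ C * ‖v‖) (hR : 0 < R) (hCR : C < R)
    {A : V3 →L[ℂ] V3} (hA : ∀ v, R * ‖v‖ ≤ ‖A v‖) : Good Φ A := by
  obtain ⟨U, N, hRet⟩ := Pool.Agent.L7h50.PI.s_CPR
  have hinj : ∀ v, A v = 0 → v = 0 := by
    intro v hv
    have h1 := hA v
    rw [hv, norm_zero] at h1
    by_contra hv0
    have : 0 < ‖v‖ := norm_pos_iff.2 hv0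
    have : 0 < R * ‖v‖ := by positivity
    linarith
  obtain ⟨κ, hκ, hN⟩ := exists_scalar hinj
  have hid : ∀ P ∈ CP2, ind (fun z => z) P = P := fun P hP => pr_of_proj (proj_unitOf hP)
  have hid2 : (fun z : V3 => (ContinuousLinearMap.id ℂ V3) z) = fun z => z := rfl
  have s1 : SmIso CP2 (fun P => P) (ind fun z => (κ • A) z) := by
    refine smIso_congr (ind_iso (hid2 ▸ homog_lin (ContinuousLinearMap.id ℂ V3))
      (homog_lin (κ • A)) hN ?_) hid fun x _ => rfl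
    intro x hx y hy hxy
    rwa [hid x hx, hid y hy] at hxy
  have e1 : ∀ P, ind (fun z => (κ • A) z) P = ind (fun z => (-A) z) P :=
    ind_congr (l := -κ⁻¹) (neg_ne_zero.2 (inv_ne_zero hκ)) fun z => by
      change -(A z) = -κ⁻¹ • κ • A z
      rw [smul_smul, neg_mul, inv_mul_cancel₀ hκ, neg_one_smul]
  have s2 : SmIso CP2 (fun P => P) (ind fun z => (-A) z) := smIso_congr s1 (fun _ _ => rfl)
    fun x _ => e1 x
  have hN2 : NoNeg (fun z => (-A) z) (sub Φ A) := by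
    intro z hz t ht v hv
    rw [fderiv_lin, fderiv_sub' h hz] at hv
    have h1 : A v = t • fderiv ℝ Φ z v := by
      have h2 : (1 - t) • (-A) v + t • (fderiv ℝ Φ z v - A v) = t • fderiv ℝ Φ z v - A v := by
        change (1 - t) • (-(A v)) + t • (fderiv ℝ Φ z v - A v) = t • fderiv ℝ Φ z v - A v
        rw [smul_sub, sub_smul, one_smul, smul_neg]
        abel
      rw [h2] at hv
      exact (sub_eq_zero.1 hv).symm
    by_contra hv0
    have hn : 0 < ‖v‖ := norm_pos_iff.2 hv0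
    have h3 := hA v
    rw [h1, norm_smul, Real.norm_eq_abs, abs_of_nonneg ht.1] at h3
    have h4 : t * ‖fderiv ℝ Φ z v‖ ≤ 1 * ‖fderiv ℝ Φ z v‖ := by
      gcongr
      exact ht.2
    have h5 := hC z hz v
    have h6 : C * ‖v‖ < R * ‖v‖ := by gcongr
    linarith
  exact smIso_trans hRet Pool.Agent.L7h50.PI.s_CPC.1 s2
    (ind_iso (homog_lin (-A)) (homog_sub h A) hN2 (inj_of_iso s2))

/-- THE COMPONENT CRITERION -/
theorem comp_iso {Φ : V3 → V3} (h : Homog Φ)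
    (hfar : ∀ R : ℝ, ∃ A ∈ connectedComponentIn (Om Φ) 0, ∀ v, R * ‖v‖ ≤ ‖A v‖) :
    SmIso CP2 (fun P => P) (ind Φ) := by
  obtain ⟨C, hC⟩ := exists_upper h
  obtain ⟨A, hA, hAR⟩ := hfar (max C 0 + 1)
  have hgood : Good Φ A := good_far h hC (by positivity)
    (lt_of_le_of_lt (le_max_left C 0) (lt_add_one _)) hAR
  have h0 : (0 : V3 →L[ℂ] V3) ∈ Om Φ := connectedComponentIn_nonempty_iff.1 ⟨A, hA⟩
  have hloc : ∀ B ∈ connectedComponentIn (Om Φ) 0, ∃ ε : ℝ, 0 < ε ∧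
      ∀ B' ∈ connectedComponentIn (Om Φ) 0, dist B' B < ε → (Good Φ B ↔ Good Φ B') := by
    intro B hB
    obtain ⟨m, hm, hm2⟩ := exists_lower h (connectedComponentIn_subset _ _ hB)
    refine ⟨m, hm, fun B' _ hd => ?_⟩
    rw [dist_eq_norm] at hd
    obtain ⟨n1, n2⟩ := noNeg_sub h hm hm2 hd
    exact ⟨fun hg => good_step h hg n1, fun hg => good_step h hg n2⟩
  have hfin := preconn_const isPreconnected_connectedComponentIn hloc hA
    (mem_connectedComponentIn h0) hgood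
  have e : sub Φ 0 = Φ := by
    funext z
    simp [sub]
  rw [Good, e] at hfin
  exact hfin

end Pool.Agent.L7h45.PI
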