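import Pool.Agent.L7h45.PI.Vec
import Pool.Agent.L7h50.PI.Cpc

/-!
# `CP²`: tangent vectors and the family `kk`
-/

set_option autoImplicit false
set_option linter.unusedSectionVars false

open Set Filter Topology Metric
open scoped ContDiff ComplexConjugate

noncomputable section

namespace Pool.Agent.L7h45.PI

open Pool.Agent.L7h32.AA Pool.Agent.L7h32.PI

/-- `P` is the orthogonal projection on the line of the unit vector `u` -/
def Proj (u : Fin 3 → ℂ) (P : M3) : Prop := ip u u = 1 ∧ ∀ i j, P i j = u i * star (u j)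

/-- `p` is tangent to `CP²` at `P` -/
def Tangent (P p : M3) : Prop :=
  (∀ i j, p j i = star (p i j)) ∧ ∀ i j, ∑ k, (P i k * p k j + p i k * P k j) = p i j

/-- the horizontal lift of `p` to the vector `u` -/
def lift (p : M3) (u : Fin 3 → ℂ) : Fin 3 → ℂ := fun i => ∑ j, p i j * u j

theorem hasDerivAt_entry {γ : ℝ → M3} {p : M3} {s : ℝ} (h : HasDerivAt γ p s) (i j : Fin 3) :
    HasDerivAt (fun s => γ s i j) (p i j) s := by
  have h1 := hasDerivAt_pi.1 h i
  exact hasDerivAt_pi.1 h1 j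

theorem tan_curve {γ : ℝ → M3} {p : M3} (hγ : HasDerivAt γ p 0) (hm : ∀ᶠ s in 𝓝 0, γ s ∈ CP2) :
    Tangent (γ 0) p := by
  refine ⟨fun i j => ?_, fun i j => ?_⟩
  · have h1 := hasDerivAt_entry hγ j i
    have h2 : HasDerivAt (fun s => star (γ s i j)) (star (p i j)) 0 := (hasDerivAt_entry hγ i j).star
    refine h1.unique (h2.congr_of_eventuallyEq ?_)
    filter_upwards [hm] with s hs
    exact hs.1 i j
  · have h1 : HasDerivAt (fun s => ∑ k, γ s i k * γ s k j)
        (∑ k, (p i k * γ 0 k j + γ 0 i k * p k j)) 0 := by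
      refine HasDerivAt.fun_sum fun k _ => ?_
      exact (hasDerivAt_entry hγ i k).mul (hasDerivAt_entry hγ k j)
    have h2 := hasDerivAt_entry hγ i j
    have h3 := h1.unique (h2.congr_of_eventuallyEq (by
      filter_upwards [hm] with s hs
      exact hs.2.1 i j))
    rw [← h3]
    refine Finset.sum_congr rfl fun k _ => ?_
    ring

theorem tan_lift {u : Fin 3 → ℂ} {P p : M3} (hu : Proj u P) (hp : Tangent P p) :
    ip u (lift p u) = 0 ∧ ∀ i j, p i j = lift p u i * star (u j) + u i * star (lift p u j) := by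
  obtain ⟨hu1, hu2⟩ := hu
  obtain ⟨hp1, hp2⟩ := hp
  have h1 : ∀ i j, p i j = lift p u i * star (u j) + u i * star (lift p u j) := by
    intro i j
    rw [← hp2 i j]
    have e0 : p 0 j = conj (p j 0) := hp1 j 0
    have e1 : p 1 j = conj (p j 1) := hp1 j 1
    have e2 : p 2 j = conj (p j 2) := hp1 j 2
    simp only [lift, Fin.sum_univ_three, hu2, Complex.star_def, map_add, map_mul, e0, e1, e2]
    ring
  refine ⟨?_, h1⟩
  have h2 : ∀ i, u i * ip (lift p u) u = 0 := by
    intro i
    have h3 : lift p u i = lift p u i * ip u u + u i * ip (lift p u) u := by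
      have h4 : lift p u i = ∑ j, (lift p u i * star (u j) + u i * star (lift p u j)) * u j := by
        conv_lhs => rw [lift]
        exact Finset.sum_congr rfl fun j _ => by rw [h1 i j]
      refine h4.trans ?_
      generalize lift p u = l
      simp only [ip, Fin.sum_univ_three]
      ring
    rw [hu1, mul_one] at h3
    exact left_eq_add.1 h3
  have h5 : ip (lift p u) u = 0 := by
    have h6 : ip u u * ip (lift p u) u = 0 := by
      have : ip u u * ip (lift p u) u = ∑ i, star (u i) * (u i * ip (lift p u) u) := by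
        conv_lhs => rw [ip]
        rw [Finset.sum_mul]
        exact Finset.sum_congr rfl fun i _ => by ring
      rw [this]
      exact Finset.sum_eq_zero fun i _ => by rw [h2 i, mul_zero]
    rwa [hu1, one_mul] at h6
  rw [← ip_conj, h5, map_zero]

theorem lift_eq_zero {u : Fin 3 → ℂ} {P p : M3} (hu : Proj u P) (hp : Tangent P p)
    (h : ∀ i, lift p u i = 0) : p = 0 := by
  funext i j
  rw [(tan_lift hu hp).2 i j, h i, h j]
  simp

theorem exists_proj {P : M3} (hP : P ∈ CP2) : ∃ u, Proj u P := by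
  obtain ⟨v, hv, hvP⟩ := Pool.Agent.L7h50.PI.vv_surj hP
  refine ⟨fun i => v i, ?_, fun i j => by rw [← hvP]; rfl⟩
  rw [← Pool.Agent.L7h50.PI.sum_sphere hv]
  exact Finset.sum_congr rfl fun i _ => mul_comm _ _

/-- the trace of a product -/
def tr2 (Y Z : M3) : ℂ := ∑ i, ∑ k, Y i k * Z k i

theorem tr2_proj {u w : Fin 3 → ℂ} {P Q : M3} (hu : Proj u P) (hw : Proj w Q) :
    tr2 P Q = ip w u * conj (ip w u) := by
  rw [ip_conj]
  simp only [tr2, Fin.sum_univ_three, hu.2, hw.2, ip]
  ring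

theorem exists_pair {P Q : M3} (hP : P ∈ CP2) (hQ : Q ∈ CP2) (h : tr2 P Q ≠ 0) :
    ∃ (u w : Fin 3 → ℂ) (c : ℝ), Proj u P ∧ Proj w Q ∧ ip w u = c ∧ 0 < c := by
  obtain ⟨u, hu⟩ := exists_proj hP
  obtain ⟨w, hw⟩ := exists_proj hQ
  have hz : ip w u ≠ 0 := by
    intro h0
    rw [tr2_proj hu hw, h0, zero_mul] at h
    exact h rfl
  obtain ⟨z, hz1⟩ : ∃ z : ℂ, z = ip w u := ⟨_, rfl⟩
  rw [← hz1] at hz
  have hn : 0 < ‖z‖ := norm_pos_iff.2 hz
  have hn' : (‖z‖ : ℂ) ≠ 0 := by exact_mod_cast hn.ne'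
  have hzz : z * conj z = (‖z‖ : ℂ) * ‖z‖ := by
    rw [Complex.mul_conj, Complex.normSq_eq_norm_sq]
    push_cast
    ring
  obtain ⟨e, he⟩ : ∃ e : ℂ, e = z / ‖z‖ := ⟨_, rfl⟩
  have hce : conj e = conj z / ‖z‖ := by rw [he, map_div₀, Complex.conj_ofReal]
  have hee : e * conj e = 1 := by
    rw [hce, he, div_mul_div_comm, hzz, div_self (mul_ne_zero hn' hn')]
  refine ⟨u, fun i => e * w i, ‖z‖, hu, ⟨?_, fun i j => ?_⟩, ?_, hn⟩
  · have : ip (fun i => e * w i) (fun i => e * w i) = (e * conj e) * ip w w := by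
      simp only [ip, Fin.sum_univ_three, Complex.star_def, map_mul]
      ring
    rw [this, hee, hw.1, one_mul]
  · rw [hw.2 i j]
    simp only [Complex.star_def, map_mul]
    linear_combination (-(w i * conj (w j))) * hee
  · have : ip (fun i => e * w i) u = conj e * ip w u := by
      simp only [ip, Fin.sum_univ_three, Complex.star_def, map_mul]
      ring
    rw [this, hce, ← hz1, div_mul_eq_mul_div, mul_comm, hzz, mul_div_assoc, div_self hn', mul_one]

/-- `√ tr(Y Z)` -/
def cc (Y Z : M3) : ℝ := √(tr2 Y Z).re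

/-- the denominator -/
def den (t : ℝ) (Y Z : M3) : ℝ := (1 - t) ^ 2 + t ^ 2 + 2 * t * (1 - t) * cc Y Z

/-- `Y Z + Z Y` -/
def anti (Y Z : M3) : M3 := fun i j => ∑ k, (Y i k * Z k j + Z i k * Y k j)

/-- the numerator -/
def num (t : ℝ) (Y Z : M3) : M3 := fun i j =>
  (1 - t) ^ 2 * Y i j + t ^ 2 * Z i j + t * (1 - t) / cc Y Z * anti Y Z i j

/-- the family: a point of the minimal geodesic from `Y` to `Z` -/
def kk (t : ℝ) (Y Z : M3) : M3 := fun i j => num t Y Z i j / den t Y Z

theorem cc_proj {u w : Fin 3 → ℂ} {c : ℝ} {P Q : M3} (hu : Proj u P) (hw : Proj w Q)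
    (huw : ip w u = c) (hc : 0 < c) : cc P Q = c := by
  rw [cc, tr2_proj hu hw, huw, Complex.conj_ofReal, ← Complex.ofReal_mul, Complex.ofReal_re,
    Real.sqrt_mul_self hc.le]

theorem cc_nonneg (Y Z : M3) : 0 ≤ cc Y Z := Real.sqrt_nonneg _

theorem den_pos {t : ℝ} (h0 : 0 ≤ t) (h1 : t ≤ 1) (Y Z : M3) : 0 < den t Y Z := by
  unfold den
  have h2 : 0 ≤ 2 * t * (1 - t) * cc Y Z := by
    have : 0 ≤ 1 - t := by linarith
    have := cc_nonneg Y Z
    positivity
  nlinarith [sq_nonneg (2 * t - 1)]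

/-- the vector on the segment -/
def seg (t : ℝ) (u w : Fin 3 → ℂ) : Fin 3 → ℂ := fun i => (1 - t) * u i + t * w i

theorem seg_ip {u w : Fin 3 → ℂ} {c t : ℝ} {P Q : M3} (hu : Proj u P) (hw : Proj w Q)
    (huw : ip w u = c) (hc : 0 < c) : ip (seg t u w) (seg t u w) = (den t P Q : ℂ) := by
  have huw' : ip u w = c := by rw [← ip_conj, huw, Complex.conj_ofReal]
  have : ip (seg t u w) (seg t u w) = (1 - t) ^ 2 * ip u u + t ^ 2 * ip w w +
      t * (1 - t) * (ip w u + ip u w) := by
    simp only [seg, ip, Fin.sum_univ_three, Complex.star_def, map_sub, map_mul, map_add, map_one,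
      Complex.conj_ofReal]
    ring
  rw [this, hu.1, hw.1, huw, huw', den, cc_proj hu hw huw hc]
  push_cast
  ring

theorem anti_proj {u w : Fin 3 → ℂ} {c : ℝ} {P Q : M3} (hu : Proj u P) (hw : Proj w Q)
    (huw : ip w u = c) (i j : Fin 3) :
    anti P Q i j = c * (u i * star (w j) + w i * star (u j)) := by
  have huw' : ip u w = c := by rw [← ip_conj, huw, Complex.conj_ofReal]
  have : anti P Q i j = ip u w * (u i * star (w j)) + ip w u * (w i * star (u j)) := by
    simp only [anti, ip, Fin.sum_univ_three, hu.2, hw.2]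
    ring
  rw [this, huw, huw']
  ring

theorem num_proj {u w : Fin 3 → ℂ} {c t : ℝ} {P Q : M3} (hu : Proj u P) (hw : Proj w Q)
    (huw : ip w u = c) (hc : 0 < c) (i j : Fin 3) :
    num t P Q i j = seg t u w i * star (seg t u w j) := by
  have hc' : (c : ℂ) ≠ 0 := by exact_mod_cast hc.ne'
  rw [num, anti_proj hu hw huw, cc_proj hu hw huw hc, hu.2, hw.2]
  simp only [seg, Complex.star_def, map_sub, map_mul, map_add, map_one, Complex.conj_ofReal]
  field_simp
  ring

theorem kk_mem {t : ℝ} (h0 : 0 ≤ t) (h1 : t ≤ 1) {P Q : M3} (hP : P ∈ CP2) (hQ : Q ∈ CP2)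
    (h : tr2 P Q ≠ 0) : kk t P Q ∈ CP2 := by
  obtain ⟨u, w, c, hu, hw, huw, hc⟩ := exists_pair hP hQ h
  have hd := den_pos h0 h1 P Q
  have hd' : (den t P Q : ℂ) ≠ 0 := by exact_mod_cast hd.ne'
  have hk : ∀ i j, kk t P Q i j = seg t u w i * star (seg t u w j) / den t P Q := fun i j => by
    rw [kk, num_proj hu hw huw hc]
  have hx := seg_ip (t := t) hu hw huw hc
  generalize seg t u w = x at *
  generalize den t P Q = D at *
  refine ⟨fun i j => ?_, fun i j => ?_, ?_⟩
  · rw [hk, hk]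
    simp only [Complex.star_def, map_mul, map_div₀, Complex.conj_ofReal, Complex.conj_conj]
    ring
  · rw [hk i j, Finset.sum_congr rfl fun k _ => by rw [hk i k, hk k j]]
    have : ∑ k, x i * star (x k) / (D : ℂ) * (x k * star (x j) / (D : ℂ)) =
        ip x x * (x i * star (x j)) / (D * D) := by
      simp only [ip, Fin.sum_univ_three]
      field_simp
    rw [this, hx]
    field_simp
  · rw [Finset.sum_congr rfl fun i _ => hk i i]
    have : ∑ i, x i * star (x i) / (D : ℂ) = ip x x / D := by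
      simp only [ip, Fin.sum_univ_three]
      ring
    rw [this, hx, div_self hd']

theorem kk_zero (Y Z : M3) : kk 0 Y Z = Y := by
  funext i j
  simp [kk, num, den]

theorem kk_one (Y Z : M3) : kk 1 Y Z = Z := by
  funext i j
  simp [kk, num, den]

end Pool.Agent.L7h45.PI
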