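import Pool.Agent.L7h45.PI.Cp2

/-!
# The derivative of the family `kk`
-/

set_option autoImplicit false
set_option linter.unusedSectionVars false

open Set Filter Topology Metric
open scoped ContDiff ComplexConjugate

noncomputable section

namespace Pool.Agent.L7h45.PI

open Pool.Agent.L7h32.AA Pool.Agent.L7h32.PI

/-- if `x' x^* + x x'^* = μ x x^*`, then `x'` is a multiple of `x` -/
theorem mult_of {x x' : Fin 3 → ℂ} {μ : ℂ} {D : ℝ} (hD : D ≠ 0) (hx : ip x x = D)
    (h : ∀ i j, x' i * star (x j) + x i * star (x' j) = μ * (x i * star (x j))) :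
    ∃ ν : ℂ, ∀ i, x' i = ν * x i := by
  have hD' : (D : ℂ) ≠ 0 := by exact_mod_cast hD
  refine ⟨μ - ip x' x / D, fun i => ?_⟩
  have h1 : ∑ j, (x' i * star (x j) + x i * star (x' j)) * x j =
      ∑ j, μ * (x i * star (x j)) * x j := Finset.sum_congr rfl fun j _ => by rw [h i j]
  have h2 : ∑ j, (x' i * star (x j) + x i * star (x' j)) * x j =
      x' i * ip x x + x i * ip x' x := by
    simp only [ip, Fin.sum_univ_three]
    ring
  have h3 : ∑ j, μ * (x i * star (x j)) * x j = μ * x i * ip x x := by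
    simp only [ip, Fin.sum_univ_three]
    ring
  rw [h2, h3, hx] at h1
  field_simp
  linear_combination h1

theorem hasDerivAt_tr2 {y z : ℝ → M3} {p q : M3} (hy : HasDerivAt y p 0) (hz : HasDerivAt z q 0) :
    HasDerivAt (fun s => tr2 (y s) (z s)) (tr2 p (z 0) + tr2 (y 0) q) 0 := by
  have h : HasDerivAt (fun s => tr2 (y s) (z s))
      (∑ i, ∑ k, (p i k * z 0 k i + y 0 i k * q k i)) 0 := by
    refine HasDerivAt.fun_sum fun i _ => HasDerivAt.fun_sum fun k _ => ?_
    exact (hasDerivAt_entry hy i k).mul (hasDerivAt_entry hz k i)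
  convert h using 1
  simp only [tr2, Finset.sum_add_distrib]

theorem hasDerivAt_anti {y z : ℝ → M3} {p q : M3} (hy : HasDerivAt y p 0) (hz : HasDerivAt z q 0)
    (i j : Fin 3) :
    HasDerivAt (fun s => anti (y s) (z s) i j) (anti p (z 0) i j + anti (y 0) q i j) 0 := by
  have h : HasDerivAt (fun s => anti (y s) (z s) i j)
      (∑ k, ((p i k * z 0 k j + y 0 i k * q k j) + (q i k * y 0 k j + z 0 i k * p k j))) 0 := by
    refine HasDerivAt.fun_sum fun k _ => ?_
    exact ((hasDerivAt_entry hy i k).mul (hasDerivAt_entry hz k j)).add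
      ((hasDerivAt_entry hz i k).mul (hasDerivAt_entry hy k j))
  convert h using 1
  simp only [anti, ← Finset.sum_add_distrib]
  exact Finset.sum_congr rfl fun k _ => by ring

theorem hasDerivAt_cc {y z : ℝ → M3} {p q : M3} {c : ℝ} (hy : HasDerivAt y p 0)
    (hz : HasDerivAt z q 0) (hc : 0 < c) (hcc : cc (y 0) (z 0) = c) :
    HasDerivAt (fun s => cc (y s) (z s)) ((tr2 p (z 0) + tr2 (y 0) q).re / (2 * c)) 0 := by
  have h1 : HasDerivAt (fun s => (tr2 (y s) (z s)).re) (tr2 p (z 0) + tr2 (y 0) q).re 0 :=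
    Complex.reCLM.hasFDerivAt.comp_hasDerivAt (0 : ℝ) (hasDerivAt_tr2 hy hz)
  have h2 := h1.sqrt (by
    intro h0
    rw [cc, h0, Real.sqrt_zero] at hcc
    exact hc.ne hcc)
  have h3 : √(tr2 (y 0) (z 0)).re = c := hcc
  rw [h3] at h2
  exact h2

theorem der_core {t : ℝ} (ht0 : 0 < t) (ht1 : t < 1) {y z : ℝ → M3} {p q : M3}
    {u w : Fin 3 → ℂ} {c : ℝ} (hy : HasDerivAt y p 0) (hz : HasDerivAt z q 0)
    (hym : ∀ᶠ s in 𝓝 0, y s ∈ CP2) (hzm : ∀ᶠ s in 𝓝 0, z s ∈ CP2)
    (hu : Proj u (y 0)) (hw : Proj w (z 0)) (huw : ip w u = c) (hc : 0 < c)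
    (hk : HasDerivAt (fun s => kk t (y s) (z s)) 0 0) :
    (ip (transport u w (lift p u)) (lift q w)).re ≤
      -(2 * c / (1 + c ^ 2) * (len (lift p u) * len (lift q w))) := by
  have hcc := cc_proj hu hw huw hc
  have hc' : (c : ℂ) ≠ 0 := by exact_mod_cast hc.ne'
  have huw' : ip u w = c := by rw [← ip_conj, huw, Complex.conj_ofReal]
  have hD := den_pos ht0.le ht1.le (y 0) (z 0)
  have hD' : (den t (y 0) (z 0) : ℂ) ≠ 0 := by exact_mod_cast hD.ne'
  obtain ⟨ha, hpa⟩ := tan_lift hu (tan_curve hy hym)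
  obtain ⟨hb, hqb⟩ := tan_lift hw (tan_curve hz hzm)
  have hx := seg_ip (t := t) hu hw huw hc
  have hnp := num_proj (t := t) hu hw huw hc
  have hap := anti_proj hu hw huw
  obtain ⟨c', hcd⟩ : ∃ c' : ℝ, c' = (tr2 p (z 0) + tr2 (y 0) q).re / (2 * c) := ⟨_, rfl⟩
  have d1 := hasDerivAt_cc hy hz hc hcc
  rw [← hcd] at d1
  have d1' : HasDerivAt (fun s => (cc (y s) (z s) : ℂ)) (c' : ℂ) 0 := d1.ofReal_comp
  have d2 : HasDerivAt (fun s => (den t (y s) (z s) : ℂ)) ((2 * t * (1 - t) * c' : ℝ) : ℂ) 0 := by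
    have : HasDerivAt (fun s => den t (y s) (z s)) (2 * t * (1 - t) * c') 0 :=
      (d1.const_mul (2 * t * (1 - t))).const_add _
    exact this.ofReal_comp
  have d3 : ∀ i j, HasDerivAt (fun s => num t (y s) (z s) i j)
      ((1 - t) ^ 2 * p i j + t ^ 2 * q i j + (-(t * (1 - t) * c') / c ^ 2 * anti (y 0) (z 0) i j +
        t * (1 - t) / c * (anti p (z 0) i j + anti (y 0) q i j))) 0 := by
    intro i j
    have e1 : HasDerivAt (fun s => (t * (1 - t) : ℂ) / (cc (y s) (z s) : ℂ))
        (-(t * (1 - t) * c') / c ^ 2) 0 := by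
      have e0 := (hasDerivAt_const (0 : ℝ) (t * (1 - t) : ℂ)).fun_div d1' (by rw [hcc]; exact hc')
      rw [hcc, zero_mul, zero_sub] at e0
      exact e0
    have e2 := e1.mul (hasDerivAt_anti hy hz i j)
    have e3 := (((hasDerivAt_entry hy i j).const_mul ((1 - t) ^ 2 : ℂ)).add
      ((hasDerivAt_entry hz i j).const_mul (t ^ 2 : ℂ))).add e2
    rw [hcc] at e3
    exact e3
  have d4 : ∀ i j, HasDerivAt (fun s => num t (y s) (z s) i j)
      (kk t (y 0) (z 0) i j * ((2 * t * (1 - t) * c' : ℝ) : ℂ)) 0 := by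
    intro i j
    have e1 := (hasDerivAt_entry hk i j).mul d2
    have e2 : (fun s => kk t (y s) (z s) i j * (den t (y s) (z s) : ℂ)) =
        fun s => num t (y s) (z s) i j := by
      funext s
      have : (den t (y s) (z s) : ℂ) ≠ 0 := by
        exact_mod_cast (den_pos ht0.le ht1.le (y s) (z s)).ne'
      rw [kk, div_mul_cancel₀ _ this]
    have e3 : HasDerivAt (fun s => kk t (y s) (z s) i j * (den t (y s) (z s) : ℂ))
        ((0 : M3) i j * (den t (y 0) (z 0) : ℂ) +
          kk t (y 0) (z 0) i j * ((2 * t * (1 - t) * c' : ℝ) : ℂ)) 0 := e1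
    rw [e2] at e3
    convert e3 using 1
    simp
  have hmain : ∀ i j, (1 - t) ^ 2 * p i j + t ^ 2 * q i j +
      (-(t * (1 - t) * c') / c ^ 2 * anti (y 0) (z 0) i j +
        t * (1 - t) / c * (anti p (z 0) i j + anti (y 0) q i j)) =
      ((2 * t * (1 - t) * c' : ℝ) : ℂ) / (den t (y 0) (z 0) : ℂ) *
        (seg t u w i * star (seg t u w j)) := by
    intro i j
    rw [(d3 i j).unique (d4 i j), kk, hnp]
    ring
  have ht1' : HasDerivAt (fun s : ℝ => s) 1 0 := hasDerivAt_id 0
  -- the constants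
  have hap1 : ∀ i j, anti p (z 0) i j = c * (lift p u i * star (w j) + w i * star (lift p u j)) +
      ip (lift p u) w * (u i * star (w j)) + ip w (lift p u) * (w i * star (u j)) := by
    intro i j
    have : anti p (z 0) i j = ip u w * (lift p u i * star (w j)) +
        ip w u * (w i * star (lift p u j)) +
        ip (lift p u) w * (u i * star (w j)) + ip w (lift p u) * (w i * star (u j)) := by
      simp only [anti, hpa, hw.2]
      generalize lift p u = l
      simp only [ip, Fin.sum_univ_three]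
      ring
    rw [this, huw, huw']
    ring
  have hap2 : ∀ i j, anti (y 0) q i j = c * (lift q w i * star (u j) + u i * star (lift q w j)) +
      ip (lift q w) u * (w i * star (u j)) + ip u (lift q w) * (u i * star (w j)) := by
    intro i j
    have : anti (y 0) q i j = ip w u * (lift q w i * star (u j)) +
        ip u w * (u i * star (lift q w j)) +
        ip (lift q w) u * (w i * star (u j)) + ip u (lift q w) * (u i * star (w j)) := by
      simp only [anti, hqb, hu.2]
      generalize lift q w = l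
      simp only [ip, Fin.sum_univ_three]
      ring
    rw [this, huw, huw']
    ring
  have htr : tr2 p (z 0) + tr2 (y 0) q = c * (ip w (lift p u) + ip (lift p u) w) +
      c * (ip u (lift q w) + ip (lift q w) u) := by
    have e1 : tr2 p (z 0) = ip u w * ip w (lift p u) + ip w u * ip (lift p u) w := by
      simp only [tr2, hpa, hw.2]
      generalize lift p u = l
      simp only [ip, Fin.sum_univ_three]
      ring
    have e2 : tr2 (y 0) q = ip w u * ip u (lift q w) + ip u w * ip (lift q w) u := by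
      simp only [tr2, hqb, hu.2]
      generalize lift q w = l
      simp only [ip, Fin.sum_univ_three]
      ring
    rw [e1, e2, huw, huw']
    ring
  have hc'2 : c' = (ip w (lift p u)).re + (ip u (lift q w)).re := by
    rw [hcd, htr, ← ip_conj w (lift p u), ← ip_conj u (lift q w)]
    simp only [Complex.add_re, Complex.mul_re, Complex.ofReal_re, Complex.ofReal_im,
      Complex.conj_re, Complex.conj_im, Complex.add_im]
    field_simp
    ring
  obtain ⟨β, hβ⟩ : ∃ β : ℝ, c * β = (ip w (lift p u)).im - (ip u (lift q w)).im :=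
    ⟨((ip w (lift p u)).im - (ip u (lift q w)).im) / c, by field_simp⟩
  obtain ⟨ν, hν⟩ := mult_of (x := seg t u w)
    (x' := fun i => (1 - t) * lift p u i + t * (lift q w i + Complex.I * β * w i))
    (μ := ((2 * t * (1 - t) * c' : ℝ) : ℂ) / (den t (y 0) (z 0) : ℂ)) hD.ne' hx (by
    intro i j
    rw [← hmain i j, hpa, hqb, hap, hap1, hap2]
    have k1 : (c' : ℂ) = (ip w (lift p u) + ip (lift p u) w) / 2 +
        (ip u (lift q w) + ip (lift q w) u) / 2 := by
      rw [hc'2, ← ip_conj w (lift p u), ← ip_conj u (lift q w)]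
      apply Complex.ext <;> simp
    have k2 : Complex.I * c * β = (ip w (lift p u) - ip (lift p u) w) / 2 -
        (ip u (lift q w) - ip (lift q w) u) / 2 := by
      rw [mul_assoc, ← Complex.ofReal_mul, hβ, ← ip_conj w (lift p u), ← ip_conj u (lift q w)]
      apply Complex.ext <;> simp
    rw [k1]
    have k3 : (β : ℂ) = ((ip w (lift p u) - ip (lift p u) w) / 2 -
        (ip u (lift q w) - ip (lift q w) u) / 2) / (Complex.I * c) := by
      rw [← k2]
      field_simp
    simp only [seg, Complex.star_def, map_sub, map_mul, map_add, map_one, Complex.conj_ofReal,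
      Complex.conj_I]
    rw [k3]
    field_simp
    ring)
  exact core hc ht0 ht1 hu.1 hw.1 huw ha hb hβ fun i => hν i

end Pool.Agent.L7h45.PI
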