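import Pool.Agent.L7h45.PI.Turn

/-!
# Homogeneous lifts `ℂ³ ∖ 0 → ℂ³ ∖ 0` of maps of `CP²`
-/

set_option autoImplicit false
set_option linter.unusedSectionVars false
set_option linter.unusedVariables false

open Set Filter Topology Metric
open scoped ContDiff ComplexConjugate

noncomputable section

namespace Pool.Agent.L7h45.PI

open Pool.Agent.L7h32.AA Pool.Agent.L7h32.PI

/-- the projection onto the line of `z` -/
def pr (z : Fin 3 → ℂ) : M3 := fun i j => z i * star (z j) / ip z z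

/-- `Φ` is smooth and homogeneous off the origin -/
def Homog (Φ : (Fin 3 → ℂ) → Fin 3 → ℂ) : Prop :=
  ContDiffOn ℝ ∞ Φ {0}ᶜ ∧ ∀ (l : ℂ) (z : Fin 3 → ℂ), l ≠ 0 → z ≠ 0 → Φ (l • z) = l • Φ z

theorem ip_pos {z : Fin 3 → ℂ} (hz : z ≠ 0) : 0 < (ip z z).re := by
  rw [ip_self_re]
  obtain ⟨i, hi⟩ : ∃ i, z i ≠ 0 := by
    by_contra h
    push Not at h
    exact hz (funext h)
  have h1 : 0 < ‖z i‖ ^ 2 := by
    have := norm_pos_iff.2 hi
    positivity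
  exact h1.trans_le (Finset.single_le_sum (f := fun i => ‖z i‖ ^ 2) (fun i _ => by positivity)
    (Finset.mem_univ i))

theorem ip_ne {z : Fin 3 → ℂ} (hz : z ≠ 0) : ip z z ≠ 0 := by
  intro h
  have := ip_pos hz
  rw [h, Complex.zero_re] at this
  exact lt_irrefl _ this

theorem pr_mem {z : Fin 3 → ℂ} (hz : z ≠ 0) : pr z ∈ CP2 := by
  have h := ip_ne hz
  have h2 : conj (ip z z) = ip z z := ip_conj z z
  have hk : ∀ i j, pr z i j = z i * star (z j) / ip z z := fun i j => rfl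
  refine ⟨fun i j => ?_, fun i j => ?_, ?_⟩
  · rw [hk, hk]
    simp only [Complex.star_def, map_mul, map_div₀, Complex.conj_conj, h2]
    ring
  · have : ∑ k, pr z i k * pr z k j = ip z z * (z i * star (z j)) / (ip z z * ip z z) := by
      simp only [hk]
      generalize hD : ip z z = D
      rw [← hD]
      conv_rhs => rw [hD]
      have : ip z z = star (z 0) * z 0 + star (z 1) * z 1 + star (z 2) * z 2 := by
        simp only [ip, Fin.sum_univ_three]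
      rw [Fin.sum_univ_three, hD]
      rw [hD] at this
      have hD0 : D ≠ 0 := by rw [← hD]; exact h
      field_simp
      rw [this]
      ring
    rw [this, hk]
    field_simp
  · have : ∑ i, pr z i i = ip z z / ip z z := by
      simp only [hk, ← Finset.sum_div]
      congr 1
      exact Finset.sum_congr rfl fun i _ => mul_comm _ _
    rw [this, div_self h]

theorem pr_smul {l : ℂ} (hl : l ≠ 0) (z : Fin 3 → ℂ) : pr (l • z) = pr z := by
  have h1 : ip (l • z) (l • z) = (l * conj l) * ip z z := by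
    simp only [ip, Fin.sum_univ_three, Pi.smul_apply, smul_eq_mul, Complex.star_def, map_mul]
    ring
  have hl2 : l * conj l ≠ 0 := mul_ne_zero hl ((map_ne_zero _).2 hl)
  funext i j
  simp only [pr, h1, Pi.smul_apply, smul_eq_mul, Complex.star_def, map_mul]
  rw [← mul_div_mul_left (z i * conj (z j)) (ip z z) hl2]
  congr 1
  ring

theorem pr_of_proj {u : Fin 3 → ℂ} {P : M3} (h : Proj u P) : pr u = P := by
  funext i j
  rw [pr, h.1, div_one, h.2]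

theorem ne_zero_of_proj {u : Fin 3 → ℂ} {P : M3} (h : Proj u P) : u ≠ 0 := by
  rintro rfl
  have := h.1
  simp [ip] at this

/-- vectors over the same point are proportional -/
theorem smul_of_pr {u z : Fin 3 → ℂ} {P : M3} (h : Proj u P) (hz : z ≠ 0) (hzP : pr z = P) :
    ∃ l : ℂ, l ≠ 0 ∧ z = l • u := by
  have h1 : ∀ i, z i = ip u z * u i := by
    intro i
    have h2 : ∀ j, z i * star (z j) = ip z z * (u i * star (u j)) := by
      intro j
      have h3 := congrFun (congrFun hzP i) j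
      rw [h.2 i j, pr] at h3
      rw [← h3]
      field_simp [ip_ne hz]
    have h4 : ∑ j, z i * star (z j) * z j = ∑ j, ip z z * (u i * star (u j)) * z j :=
      Finset.sum_congr rfl fun j _ => by rw [h2 j]
    have h5 : ∑ j, z i * star (z j) * z j = ip z z * z i := by
      conv_rhs => rw [ip, Finset.sum_mul]
      exact Finset.sum_congr rfl fun j _ => by ring
    have h6 : ∑ j, ip z z * (u i * star (u j)) * z j = ip z z * (ip u z * u i) := by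
      have : ip u z * u i = ∑ j, star (u j) * z j * u i := by rw [ip, Finset.sum_mul]
      rw [this, Finset.mul_sum]
      exact Finset.sum_congr rfl fun j _ => by ring
    rw [h5, h6] at h4
    exact mul_left_cancel₀ (ip_ne hz) h4
  have h7 : z = ip u z • u := funext fun i => by rw [Pi.smul_apply, smul_eq_mul]; exact h1 i
  refine ⟨ip u z, fun h0 => hz ?_, h7⟩
  rw [h7, h0, zero_smul]

/-- a unit vector over `P` -/
def unitOf (P : M3) : Fin 3 → ℂ := by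
  classical exact if h : ∃ u, Proj u P then h.choose else 0

theorem proj_unitOf {P : M3} (hP : P ∈ CP2) : Proj (unitOf P) P := by
  have h := exists_proj hP
  rw [unitOf, dif_pos h]
  exact h.choose_spec

/-- the segment between two lifts -/
def psi (Φ₀ Φ₁ : (Fin 3 → ℂ) → Fin 3 → ℂ) (t : ℝ) (z : Fin 3 → ℂ) : Fin 3 → ℂ :=
  (1 - t) • Φ₀ z + t • Φ₁ z

theorem psi_smul {Φ₀ Φ₁ : (Fin 3 → ℂ) → Fin 3 → ℂ} (h0 : Homog Φ₀) (h1 : Homog Φ₁) (t : ℝ)
    {l : ℂ} {z : Fin 3 → ℂ} (hl : l ≠ 0) (hz : z ≠ 0) : psi Φ₀ Φ₁ t (l • z) = l • psi Φ₀ Φ₁ t z := by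
  simp only [psi, h0.2 l z hl hz, h1.2 l z hl hz, smul_add]
  rw [smul_comm (1 - t) l, smul_comm t l]

/-- the path of maps -/
def PP (Φ₀ Φ₁ : (Fin 3 → ℂ) → Fin 3 → ℂ) (N : M3 → M3) (p : ℝ × M3) : M3 :=
  pr (psi Φ₀ Φ₁ (Real.smoothTransition p.1) (unitOf (N p.2)))

/-- the segments consist of immersions -/
def NoNeg (Φ₀ Φ₁ : (Fin 3 → ℂ) → Fin 3 → ℂ) : Prop :=
  ∀ z : Fin 3 → ℂ, z ≠ 0 → ∀ t ∈ Icc (0 : ℝ) 1, ∀ v,
    (1 - t) • fderiv ℝ Φ₀ z v + t • fderiv ℝ Φ₁ z v = 0 → v = 0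

/-- the column -/
def col (j : Fin 3) (P : M3) : Fin 3 → ℂ := fun i => P i j

theorem col_ne {j : Fin 3} {P : M3} (h : P j j ≠ 0) : col j P ≠ 0 := fun h0 => h (congrFun h0 j)

theorem pr_col {j : Fin 3} {P : M3} (hP : P ∈ CP2) (h : P j j ≠ 0) : pr (col j P) = P := by
  obtain ⟨u, hu⟩ := exists_proj hP
  have h1 : col j P = star (u j) • u := by
    funext i
    rw [Pi.smul_apply, smul_eq_mul, col, hu.2, mul_comm]
  have h2 : star (u j) ≠ 0 := by
    intro h0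
    rw [hu.2, h0, mul_zero] at h
    exact h rfl
  rw [h1, pr_smul h2, pr_of_proj hu]

theorem exists_diag {P : M3} (hP : P ∈ CP2) : ∃ j, P j j ≠ 0 := by
  by_contra h
  push Not at h
  have h3 := hP.2.2
  rw [Finset.sum_eq_zero fun j _ => h j] at h3
  exact zero_ne_one h3

theorem pr_psi {Φ₀ Φ₁ : (Fin 3 → ℂ) → Fin 3 → ℂ} (h0 : Homog Φ₀) (h1 : Homog Φ₁) (t : ℝ)
    {z : Fin 3 → ℂ} (hz : z ≠ 0) : pr (psi Φ₀ Φ₁ t (unitOf (pr z))) = pr (psi Φ₀ Φ₁ t z) := by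
  have h2 := proj_unitOf (pr_mem hz)
  obtain ⟨l, hl, hzl⟩ := smul_of_pr h2 hz rfl
  conv_rhs => rw [hzl, psi_smul h0 h1 t hl (ne_zero_of_proj h2), pr_smul hl]

theorem hasFDerivAt_hom {Φ : (Fin 3 → ℂ) → Fin 3 → ℂ} (h : Homog Φ) {z : Fin 3 → ℂ} (hz : z ≠ 0) :
    HasFDerivAt Φ (fderiv ℝ Φ z) z :=
  ((h.1.contDiffAt (isOpen_compl_singleton.mem_nhds hz)).differentiableAt (by simp)).hasFDerivAt

/-- Euler's relation -/
theorem euler {Φ : (Fin 3 → ℂ) → Fin 3 → ℂ} (h : Homog Φ) {z : Fin 3 → ℂ} (hz : z ≠ 0) (ν : ℂ) :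
    fderiv ℝ Φ z (ν • z) = ν • Φ z := by
  have h1 : HasDerivAt (fun s : ℝ => z + s • (ν • z)) (ν • z) 0 := by
    have := ((hasDerivAt_id (0 : ℝ)).smul_const (ν • z)).const_add z
    simpa using this
  have h2 : HasDerivAt (fun s : ℝ => Φ (z + s • (ν • z))) (fderiv ℝ Φ z (ν • z)) 0 := by
    refine HasFDerivAt.comp_hasDerivAt (0 : ℝ) (l := Φ) (l' := fderiv ℝ Φ z) ?_ h1
    simpa using hasFDerivAt_hom h hz
  have h3 : HasDerivAt (fun s : ℝ => Φ z + s • (ν • Φ z)) (ν • Φ z) 0 := by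
    have := ((hasDerivAt_id (0 : ℝ)).smul_const (ν • Φ z)).const_add (Φ z)
    simpa using this
  refine h2.unique (h3.congr_of_eventuallyEq ?_)
  have h4 : Continuous (fun s : ℝ => (1 : ℂ) + s * ν) := by fun_prop
  have h5 : ∀ᶠ s : ℝ in 𝓝 (0 : ℝ), (1 : ℂ) + (s : ℂ) * ν ≠ 0 := by
    refine h4.continuousAt.eventually_ne ?_
    simp
  filter_upwards [h5] with s hs
  have e1 : z + s • (ν • z) = ((1 : ℂ) + s * ν) • z := by
    funext i
    simp only [Pi.add_apply, Pi.smul_apply, smul_eq_mul, Complex.real_smul]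
    ring
  rw [e1, h.2 _ z hs hz]
  funext i
  simp only [Pi.add_apply, Pi.smul_apply, smul_eq_mul, Complex.real_smul]
  ring

theorem psi_ne {Φ₀ Φ₁ : (Fin 3 → ℂ) → Fin 3 → ℂ} (h0 : Homog Φ₀) (h1 : Homog Φ₁)
    (hN : NoNeg Φ₀ Φ₁) {t : ℝ} (ht : t ∈ Icc (0 : ℝ) 1) {z : Fin 3 → ℂ} (hz : z ≠ 0) :
    psi Φ₀ Φ₁ t z ≠ 0 := by
  intro h
  refine hz (hN z hz t ht z ?_)
  have e0 := euler h0 hz 1
  have e1 := euler h1 hz 1
  rw [one_smul, one_smul] at e0 e1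
  rw [e0, e1]
  exact h

theorem cd_ip_re {E : Type} [NormedAddCommGroup E] [NormedSpace ℝ E] {S : Set E}
    {Z : E → Fin 3 → ℂ} (h : ContDiffOn ℝ ∞ Z S) : ContDiffOn ℝ ∞ (fun x => (ip (Z x) (Z x)).re) S := by
  have h1 : ∀ i, ContDiffOn ℝ ∞ (fun x => Z x i) S := fun i => contDiffOn_pi.1 h i
  have h2 : ∀ i, ContDiffOn ℝ ∞ (fun x => conj (Z x i)) S := fun i =>
    Complex.conjCLE.toContinuousLinearMap.contDiff.comp_contDiffOn (h1 i)
  have h3 : ContDiffOn ℝ ∞ (fun x => ip (Z x) (Z x)) S :=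
    ContDiffOn.sum fun i _ => (h2 i).mul (h1 i)
  exact Complex.reCLM.contDiff.comp_contDiffOn h3

theorem cd_pr {E : Type} [NormedAddCommGroup E] [NormedSpace ℝ E] {S : Set E}
    {Z : E → Fin 3 → ℂ} (h : ContDiffOn ℝ ∞ Z S) (hne : ∀ x ∈ S, Z x ≠ 0) :
    ContDiffOn ℝ ∞ (fun x => pr (Z x)) S := by
  have h1 : ∀ i, ContDiffOn ℝ ∞ (fun x => Z x i) S := fun i => contDiffOn_pi.1 h i
  have h2 : ∀ i, ContDiffOn ℝ ∞ (fun x => conj (Z x i)) S := fun i =>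
    Complex.conjCLE.toContinuousLinearMap.contDiff.comp_contDiffOn (h1 i)
  have h4 : ContDiffOn ℝ ∞ (fun x => ((((ip (Z x) (Z x)).re)⁻¹ : ℝ) : ℂ)) S :=
    Complex.ofRealCLM.contDiff.comp_contDiffOn ((cd_ip_re h).inv fun x hx => (ip_pos (hne x hx)).ne')
  rw [contDiffOn_pi]
  intro i
  rw [contDiffOn_pi]
  intro j
  refine (((h1 i).mul (h2 j)).mul h4).congr fun x _ => ?_
  simp only [pr, Complex.star_def]
  rw [Complex.ofReal_inv, ← ip_self_eq, div_eq_mul_inv]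

/-- the derivative of the projection -/
theorem pr_der {Y : ℝ → Fin 3 → ℂ} {y : Fin 3 → ℂ} (hY : HasDerivAt Y y 0) (h0 : Y 0 ≠ 0)
    (hd : HasDerivAt (fun s => pr (Y s)) 0 0) : ∃ ν : ℂ, y = ν • Y 0 := by
  have hi : ∀ i, HasDerivAt (fun s => Y s i) (y i) 0 := fun i => hasDerivAt_pi.1 hY i
  have hc : ∀ i, HasDerivAt (fun s => star (Y s i)) (star (y i)) 0 := fun i => (hi i).star
  have hD : HasDerivAt (fun s => ip (Y s) (Y s))
      (∑ i, (star (y i) * Y 0 i + star (Y 0 i) * y i)) 0 :=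
    HasDerivAt.fun_sum fun i _ => (hc i).mul (hi i)
  obtain ⟨d, hd'⟩ : ∃ d : ℂ, d = ∑ i, (star (y i) * Y 0 i + star (Y 0 i) * y i) := ⟨_, rfl⟩
  rw [← hd'] at hD
  have h1 : ∀ᶠ s in 𝓝 (0 : ℝ), Y s ≠ 0 := hY.continuousAt.eventually_ne h0
  have hne := ip_ne h0
  have h2 : ∀ i j, y i * star (Y 0 j) + Y 0 i * star (y j) =
      d / ip (Y 0) (Y 0) * (Y 0 i * star (Y 0 j)) := by
    intro i j
    have e1 : HasDerivAt (fun s => Y s i * star (Y s j)) (y i * star (Y 0 j) + Y 0 i * star (y j)) 0 :=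
      (hi i).mul (hc j)
    have e2 : HasDerivAt (fun s => pr (Y s) i j * ip (Y s) (Y s))
        ((0 : M3) i j * ip (Y 0) (Y 0) + pr (Y 0) i j * d) 0 :=
      (hasDerivAt_entry hd i j).mul hD
    rw [e1.unique (e2.congr_of_eventuallyEq (by
      filter_upwards [h1] with s hs
      rw [pr, div_mul_cancel₀ _ (ip_ne hs)]))]
    simp only [Pi.zero_apply, zero_mul, zero_add, pr]
    ring
  obtain ⟨ν, hν⟩ := mult_of (ip_pos h0).ne' (ip_self_eq (Y 0)) h2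
  exact ⟨ν, funext fun i => hν i⟩

/-- if the vector moves in its line, the line does not move -/
theorem pr_der_zero {Y : ℝ → Fin 3 → ℂ} {y : Fin 3 → ℂ} {v : M3} (hY : HasDerivAt Y y 0)
    (h0 : Y 0 ≠ 0) (hd : HasDerivAt (fun s => pr (Y s)) v 0) {ν : ℂ} (hν : y = ν • Y 0) : v = 0 := by
  have hi : ∀ i, HasDerivAt (fun s => Y s i) (y i) 0 := fun i => hasDerivAt_pi.1 hY i
  have hc : ∀ i, HasDerivAt (fun s => star (Y s i)) (star (y i)) 0 := fun i => (hi i).star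
  have hD : HasDerivAt (fun s => ip (Y s) (Y s))
      (∑ i, (star (y i) * Y 0 i + star (Y 0 i) * y i)) 0 :=
    HasDerivAt.fun_sum fun i _ => (hc i).mul (hi i)
  have hdd : ∑ i, (star (y i) * Y 0 i + star (Y 0 i) * y i) = (ν + conj ν) * ip (Y 0) (Y 0) := by
    rw [hν]
    simp only [ip, Fin.sum_univ_three, Pi.smul_apply, smul_eq_mul, Complex.star_def, map_mul]
    ring
  rw [hdd] at hD
  have h1 : ∀ᶠ s in 𝓝 (0 : ℝ), Y s ≠ 0 := hY.continuousAt.eventually_ne h0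
  have hne := ip_ne h0
  funext i j
  have e1 : HasDerivAt (fun s => Y s i * star (Y s j)) (y i * star (Y 0 j) + Y 0 i * star (y j)) 0 :=
    (hi i).mul (hc j)
  have e2 : HasDerivAt (fun s => pr (Y s) i j * ip (Y s) (Y s))
      (v i j * ip (Y 0) (Y 0) + pr (Y 0) i j * ((ν + conj ν) * ip (Y 0) (Y 0))) 0 :=
    (hasDerivAt_entry hd i j).mul hD
  have e3 := e1.unique (e2.congr_of_eventuallyEq (by
    filter_upwards [h1] with s hs
    rw [pr, div_mul_cancel₀ _ (ip_ne hs)]))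
  have e4 : y i * star (Y 0 j) + Y 0 i * star (y j) = (ν + conj ν) * (Y 0 i * star (Y 0 j)) := by
    rw [hν]
    simp only [Pi.smul_apply, smul_eq_mul, Complex.star_def, map_mul]
    ring
  have e5 : pr (Y 0) i j * ((ν + conj ν) * ip (Y 0) (Y 0)) =
      (ν + conj ν) * (Y 0 i * star (Y 0 j)) := by
    rw [pr]
    field_simp
  rw [e4, e5] at e3
  have e6 : v i j * ip (Y 0) (Y 0) = 0 := by linear_combination -e3
  exact (mul_eq_zero.1 e6).resolve_right hne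

variable {U : Set M3} {N : M3 → M3} {Φ₀ Φ₁ : (Fin 3 → ℂ) → Fin 3 → ℂ}

theorem cd_col (hR : Ret CP2 U N) (j : Fin 3) : ContDiffOn ℝ ∞ (fun x => col j (N x)) U := by
  rw [contDiffOn_pi]
  intro i
  have h1 := contDiffOn_pi.1 hR.smooth i
  exact contDiffOn_pi.1 h1 j

theorem cd_PP (hR : Ret CP2 U N) (h0 : Homog Φ₀) (h1 : Homog Φ₁) (hN : NoNeg Φ₀ Φ₁) :
    ContDiffOn ℝ ∞ (PP Φ₀ Φ₁ N) (univ ×ˢ U) := by
  rintro ⟨t₀, x₀⟩ ⟨-, hx₀⟩
  obtain ⟨j, hj⟩ := exists_diag (hR.maps _ hx₀)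
  have hNj : ContinuousOn (fun x => N x j j) U := by
    have h1 := contDiffOn_pi.1 hR.smooth j
    exact (contDiffOn_pi.1 h1 j).continuousOn
  have hW : IsOpen (U ∩ (fun x => N x j j) ⁻¹' {0}ᶜ) :=
    hNj.isOpen_inter_preimage hR.opn isOpen_compl_singleton
  set W : Set M3 := U ∩ (fun x => N x j j) ⁻¹' {0}ᶜ with hWd
  have hx₀W : x₀ ∈ W := ⟨hx₀, hj⟩
  have hcol : ContDiffOn ℝ ∞ (fun p : ℝ × M3 => col j (N p.2)) (univ ×ˢ W) :=
    ((cd_col hR j).mono inter_subset_left).comp contDiff_snd.contDiffOn fun p hp => hp.2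
  have hcn : ∀ p ∈ (univ : Set ℝ) ×ˢ W, col j (N p.2) ∈ ({0}ᶜ : Set (Fin 3 → ℂ)) :=
    fun p hp => col_ne hp.2.2
  have hσ : ContDiffOn ℝ ∞ (fun p : ℝ × M3 => Real.smoothTransition p.1) (univ ×ˢ W) :=
    (Real.smoothTransition.contDiff.comp contDiff_fst).contDiffOn
  have hpsi : ContDiffOn ℝ ∞ (fun p : ℝ × M3 =>
      psi Φ₀ Φ₁ (Real.smoothTransition p.1) (col j (N p.2))) (univ ×ˢ W) := by
    unfold psi
    exact ((contDiffOn_const.sub hσ).smul (h0.1.comp hcol hcn)).add (hσ.smul (h1.1.comp hcol hcn))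
  have hpr := cd_pr hpsi fun p hp => psi_ne h0 h1 hN (step01 p.1) (hcn p hp)
  have hfin : ContDiffOn ℝ ∞ (PP Φ₀ Φ₁ N) (univ ×ˢ W) := by
    refine hpr.congr fun p hp => ?_
    have h2 := pr_psi h0 h1 (Real.smoothTransition p.1) (hcn p hp)
    rw [pr_col (hR.maps _ hp.2.1) hp.2.2] at h2
    exact h2
  exact (hfin.contDiffAt ((isOpen_univ.prod hW).mem_nhds ⟨mem_univ _, hx₀W⟩)).contDiffWithinAt

theorem imm_PP (hR : Ret CP2 U N) (h0 : Homog Φ₀) (h1 : Homog Φ₁) (hN : NoNeg Φ₀ Φ₁) (t : ℝ)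
    {P p : M3} (hP : P ∈ CP2) (hp : fderiv ℝ N P p = p)
    (hd : fderiv ℝ (fun y => PP Φ₀ Φ₁ N (t, y)) P p = 0) : p = 0 := by
  obtain ⟨hγ, hγm, hγ0⟩ := curve hR hP hp
  obtain ⟨j, hj⟩ := exists_diag hP
  have hMd : DifferentiableAt ℝ (fun y => PP Φ₀ Φ₁ N (t, y)) P := by
    have e1 : ContDiffAt ℝ ∞ (PP Φ₀ Φ₁ N) (t, P) :=
      (cd_PP hR h0 h1 hN).contDiffAt ((isOpen_univ.prod hR.opn).mem_nhds ⟨mem_univ _, hR.sub hP⟩)
    have e2 : ContDiffAt ℝ ∞ (fun y => PP Φ₀ Φ₁ N (t, y)) P :=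
      e1.comp P (contDiff_const.prodMk contDiff_id).contDiffAt
    exact e2.differentiableAt (by simp)
  have hk := comp_curve hγ hγ0 hMd
  rw [hd] at hk
  set z : Fin 3 → ℂ := col j P with hz
  have hz0 : z ≠ 0 := col_ne hj
  have hζ : HasDerivAt (fun s : ℝ => col j (N (P + s • p))) (col j p) 0 := by
    rw [hasDerivAt_pi]
    intro i
    exact hasDerivAt_entry hγ i j
  have hζ0 : col j (N (P + (0 : ℝ) • p)) = z := by rw [hγ0]
  have hev : ∀ᶠ s in 𝓝 (0 : ℝ), N (P + s • p) ∈ CP2 ∧ N (P + s • p) j j ≠ 0 := by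
    refine hγm.and ?_
    refine (hasDerivAt_entry hγ j j).continuousAt.eventually_ne ?_
    rw [hγ0]
    exact hj
  set τ := Real.smoothTransition t with hτ
  have hψ : HasDerivAt (fun s : ℝ => psi Φ₀ Φ₁ τ (col j (N (P + s • p))))
      ((1 - τ) • fderiv ℝ Φ₀ z (col j p) + τ • fderiv ℝ Φ₁ z (col j p)) 0 := by
    have e1 : HasDerivAt (fun s : ℝ => Φ₀ (col j (N (P + s • p)))) (fderiv ℝ Φ₀ z (col j p)) 0 := by
      refine HasFDerivAt.comp_hasDerivAt (0 : ℝ) (l := Φ₀) (l' := fderiv ℝ Φ₀ z) ?_ hζ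
      rw [hζ0]
      exact hasFDerivAt_hom h0 hz0
    have e2 : HasDerivAt (fun s : ℝ => Φ₁ (col j (N (P + s • p)))) (fderiv ℝ Φ₁ z (col j p)) 0 := by
      refine HasFDerivAt.comp_hasDerivAt (0 : ℝ) (l := Φ₁) (l' := fderiv ℝ Φ₁ z) ?_ hζ
      rw [hζ0]
      exact hasFDerivAt_hom h1 hz0
    exact (e1.const_smul (1 - τ)).add (e2.const_smul τ)
  have hψ0 : psi Φ₀ Φ₁ τ (col j (N (P + (0 : ℝ) • p))) = psi Φ₀ Φ₁ τ z := by rw [hζ0]
  have hprd : HasDerivAt (fun s : ℝ => pr (psi Φ₀ Φ₁ τ (col j (N (P + s • p))))) 0 0 := by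
    refine hk.congr_of_eventuallyEq ?_
    filter_upwards [hev] with s hs
    have h2 := pr_psi h0 h1 τ (col_ne hs.2)
    rw [pr_col hs.1 hs.2] at h2
    have h3 : N (N (P + s • p)) = N (P + s • p) := hR.fix _ hs.1
    simp only [PP, h3]
    exact h2.symm
  obtain ⟨ν, hν⟩ := pr_der hψ (by rw [hψ0]; exact psi_ne h0 h1 hN (step01 t) hz0) hprd
  rw [hψ0] at hν
  have h5 : col j p = ν • z := by
    have h6 := hN z hz0 τ (step01 t) (col j p - ν • z) (by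
      rw [map_sub, map_sub, euler h0 hz0, euler h1 hz0, smul_sub, smul_sub]
      have : (1 - τ) • ν • Φ₀ z + τ • ν • Φ₁ z = ν • psi Φ₀ Φ₁ τ z := by
        rw [psi, smul_add, smul_comm (1 - τ) ν, smul_comm τ ν]
      rw [← sub_eq_zero.2 hν, ← this]
      abel)
    exact sub_eq_zero.1 h6
  refine pr_der_zero (ν := ν) hζ (by rw [hζ0]; exact hz0) (v := p) ?_ (by rw [hζ0]; exact h5)
  refine hγ.congr_of_eventuallyEq ?_
  filter_upwards [hev] with s hs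
  exact pr_col hs.1 hs.2

theorem hom_iso (hR : Ret CP2 U N) (h0 : Homog Φ₀) (h1 : Homog Φ₁) (hN : NoNeg Φ₀ Φ₁)
    (hinj : InjOn (fun P => PP Φ₀ Φ₁ N (0, P)) CP2) :
    SmIso CP2 (fun P => PP Φ₀ Φ₁ N (0, P)) (fun P => PP Φ₀ Φ₁ N (1, P)) :=
  smooth_path (M := PP Φ₀ Φ₁ N) hR Pool.Agent.L7h50.PI.s_CPC.1 hR.opn hR.sub (cd_PP hR h0 h1 hN)
    (fun t _ P hP => pr_mem (psi_ne h0 h1 hN (step01 t)
      (ne_zero_of_proj (proj_unitOf (by rw [hR.fix P hP]; exact hP)))))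
    (fun t _ P hP v hv hd => imm_PP hR h0 h1 hN t hP hv hd) hinj

end Pool.Agent.L7h45.PI
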