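import Pool.Agent.L7h32.PI.Gen

/-!
# Smooth paths of immersions of a closed connected submanifold into itself

If `M t : K → K`, `0 ≤ t ≤ 1`, is a smooth family of immersions and `M 0` is injective, it is a smooth
isotopy.
-/

set_option autoImplicit false
set_option linter.unusedSectionVars false

open Set Filter Topology Metric
open scoped ContDiff

noncomputable section

namespace Pool.Agent.L7h45.PI

open Pool.Agent.L7h32.AA Pool.Agent.L7h32.PI Pool.Agent.L7h34.AA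

variable {E : Type} [NormedAddCommGroup E] [NormedSpace ℝ E] [FiniteDimensional ℝ E]
  {K U : Set E} {N : E → E}

theorem low_of_inj {f : E → E} (hR : Ret K U N) (hf : ContDiffOn ℝ ∞ (fun x => f (N x)) U) {x : E}
    (hx : x ∈ K)
    (hinj : ∀ v, fderiv ℝ N x v = v → fderiv ℝ (fun y => f (N y)) x v = 0 → v = 0) :
    ∃ c : ℝ, 0 < c ∧ ∃ ρ : ℝ, 0 < ρ ∧ ∀ y ∈ K, ‖y - x‖ < ρ → c * ‖x - y‖ ≤ ‖f x - f y‖ := by
  have hU := hR.opn.mem_nhds (hR.sub hx)
  have d1 := ((hR.smooth.contDiffAt hU).differentiableAt (by simp)).hasFDerivAt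
  have d2 := ((hf.contDiffAt hU).differentiableAt (by simp)).hasFDerivAt
  have d3 : HasFDerivAt (Psi N f) ((fderiv ℝ (fun y => f (N y)) x).prod
      (ContinuousLinearMap.id ℝ E - fderiv ℝ N x)) x := d2.prodMk ((hasFDerivAt_id x).sub d1)
  have hker : LinearMap.ker (fderiv ℝ (Psi N f) x : E →ₗ[ℝ] E × E) = ⊥ := by
    rw [LinearMap.ker_eq_bot']
    intro v hv
    rw [d3.fderiv] at hv
    have h1 : (fderiv ℝ (fun y => f (N y)) x v, v - fderiv ℝ N x v) = ((0 : E), (0 : E)) := hv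
    have h2 : v - fderiv ℝ N x v = 0 := congrArg Prod.snd h1
    exact hinj v (sub_eq_zero.1 h2).symm (congrArg Prod.fst h1)
  obtain ⟨M, hM, hanti⟩ := LinearMap.exists_antilipschitzWith _ hker
  have hM' : (0 : ℝ) < M := by exact_mod_cast hM
  have hlow : ∀ v : E, (M : ℝ)⁻¹ * ‖v‖ ≤ ‖fderiv ℝ (Psi N f) x v‖ := by
    intro v
    have h1 := hanti.le_mul_dist v 0
    rw [map_zero, dist_zero_right, dist_zero_right] at h1
    rw [inv_mul_le_iff₀ hM']
    exact h1
  have hc : 0 < (M : ℝ)⁻¹ / 2 := by positivity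
  have h2 := (psi_strict hR hf hx).hasFDerivAt.isLittleO.def hc
  obtain ⟨ρ, hρ, h3⟩ := Metric.eventually_nhds_iff.1 h2
  refine ⟨(M : ℝ)⁻¹ / 2, hc, ρ, hρ, fun y hy hyx => ?_⟩
  have h4 := h3 (y := y) (by rwa [dist_eq_norm])
  have e1 : Psi N f y - Psi N f x = (f y - f x, 0) := by
    unfold Psi
    rw [hR.fix _ hx, hR.fix _ hy]
    simp
  have e2 : ‖Psi N f y - Psi N f x‖ = ‖f x - f y‖ := by
    rw [e1, Prod.norm_mk, norm_zero, max_eq_left (norm_nonneg _), norm_sub_rev]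
  have e3 := hlow (y - x)
  have e4 := norm_sub_norm_le (fderiv ℝ (Psi N f) x (y - x)) (Psi N f y - Psi N f x)
  rw [norm_sub_rev (fderiv ℝ (Psi N f) x (y - x)), e2] at e4
  rw [norm_sub_rev x y]
  linarith

/-- the derivative of `f ∘ N` on tangent vectors -/
theorem fderiv_comp_tan {f : E → E} (hR : Ret K U N) {x : E} (hx : x ∈ K)
    (hf : DifferentiableAt ℝ f x) {v : E} (hv : fderiv ℝ N x v = v) :
    fderiv ℝ (fun y => f (N y)) x v = fderiv ℝ f x v := by
  have hU := hR.opn.mem_nhds (hR.sub hx)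
  have d1 := ((hR.smooth.contDiffAt hU).differentiableAt (by simp)).hasFDerivAt
  have d2 : HasFDerivAt f (fderiv ℝ f x) (N x) := by
    rw [hR.fix x hx]
    exact hf.hasFDerivAt
  have d3 : HasFDerivAt (fun y => f (N y)) ((fderiv ℝ f x).comp (fderiv ℝ N x)) x :=
    HasFDerivAt.comp x d2 d1
  rw [d3.fderiv, ContinuousLinearMap.comp_apply, hv]

/-- THE SMOOTH PATH THEOREM -/
theorem smooth_path (hR : Ret K U N) (hK : IsPreconnected K) {V : Set E} (hV : IsOpen V)
    (hKV : K ⊆ V) {M : ℝ × E → E} (hM : ContDiffOn ℝ ∞ M (univ ×ˢ V))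
    (hMK : ∀ t ∈ Icc (0 : ℝ) 1, ∀ x ∈ K, M (t, x) ∈ K)
    (himm : ∀ t ∈ Icc (0 : ℝ) 1, ∀ x ∈ K, ∀ v, fderiv ℝ N x v = v →
      fderiv ℝ (fun y => M (t, y)) x v = 0 → v = 0)
    (h0 : InjOn (fun x => M (0, x)) K) : SmIso K (fun x => M (0, x)) (fun x => M (1, x)) := by
  have hMt : ∀ t, ContDiffOn ℝ ∞ (fun x => M (t, x)) V := fun t =>
    hM.comp (contDiff_const.prodMk contDiff_id).contDiffOn fun x hx => ⟨mem_univ _, hx⟩
  have hMN : ∀ t, ContDiffOn ℝ ∞ (fun x => M (t, N x)) U := fun t =>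
    (hMt t).comp hR.smooth fun x hx => hKV (hR.maps x hx)
  have himmer : ∀ t ∈ Icc (0 : ℝ) 1, Immer K U N (fun x => M (t, x)) := by
    intro t ht
    refine ⟨hMN t, fun x hx => hMK t ht x hx, fun x hx => ?_⟩
    refine low_of_inj (f := fun x => M (t, x)) hR (hMN t) hx fun v hv hv2 => ?_
    refine himm t ht x hx v hv ?_
    rw [← fderiv_comp_tan (f := fun x => M (t, x)) hR hx
      (((hMt t).contDiffAt (hV.mem_nhds (hKV hx))).differentiableAt (by simp)) hv]
    exact hv2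
  have hinj : ∀ t ∈ Icc (0 : ℝ) 1, InjOn (fun x => M (t, x)) K := by
    refine icc_const (P := fun t => InjOn (fun x => M (t, x)) K) (fun s hs => ?_) h0
    obtain ⟨δ, hδ, h1⟩ := inj_local s_LOW pSURJ hR hK (himmer s hs)
    obtain ⟨τ, hτ, h2⟩ := Pool.Agent.L7h73.AA.s_CTS E E K V univ M hR.cpt hV hKV isOpen_univ hM s
      (mem_univ _) δ hδ
    exact ⟨τ, hτ, fun s' hs' hss => h1 _ (hMN s') (himmer s' hs').2.1 (h2 s' (mem_univ _) hss)⟩
  have hemb : ∀ t ∈ Icc (0 : ℝ) 1, Emb K U N (fun x => M (t, x)) := fun t ht =>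
    s_LOW E E K U N _ hR (hMN t) (fun x hx y hy hxy => hinj t ht hx hy hxy) (himmer t ht).2.2
  have hiso : Iso K U N (fun x => M (0, x)) (fun x => M (1, x)) := by
    refine ⟨fun t x => M (Real.smoothTransition t, x), ?_, fun t => ⟨hemb _ (step01 t),
      fun x hx => hMK _ (step01 t) x hx⟩, fun x _ => ?_, fun x _ => ?_⟩
    · refine hM.comp (ContDiffOn.prodMk ?_ ?_) fun p hp => ⟨mem_univ _, hKV (hR.maps _ hp.2)⟩
      · exact (Real.smoothTransition.contDiff.comp contDiff_fst).contDiffOn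
      · exact hR.smooth.comp contDiff_snd.contDiffOn fun p hp => hp.2
    · simp
    · simp
  exact smIso_of hR hK hiso

end Pool.Agent.L7h45.PI
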