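import Pool.Agent.L7h45.PI.Hom

/-!
# The component criterion

`Om Φ` is the set of the complex matrices `A` such that `DΦ(z) - A` is invertible for all `z ≠ 0`. If the
component of `0` contains matrices with arbitrarily large least singular value, the map of `CP²`
induced by `Φ` is smoothly isotopic to the identity.
-/

set_option autoImplicit false
set_option linter.unusedSectionVars false
set_option linter.unusedVariables false

open Set Filter Topology Metric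
open scoped ContDiff ComplexConjugate

noncomputable section

namespace Pool.Agent.L7h45.PI

open Pool.Agent.L7h32.AA Pool.Agent.L7h32.PI

/-- vectors -/
abbrev V3 : Type := Fin 3 → ℂ

/-- the matrices `A` such that `DΦ(z) - A` is injective for all `z ≠ 0` -/
def Om (Φ : V3 → V3) : Set (V3 →L[ℂ] V3) :=
  {A | ∀ z : V3, z ≠ 0 → ∀ v, fderiv ℝ Φ z v = A v → v = 0}

/-- the map `Φ - A` -/
def sub (Φ : V3 → V3) (A : V3 →L[ℂ] V3) : V3 → V3 := fun z => Φ z - A z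

/-- the induced map -/
def ind (Ψ : V3 → V3) (P : M3) : M3 := pr (Ψ (unitOf P))

theorem cd_lin (A : V3 →L[ℂ] V3) : ContDiff ℝ ∞ (fun z => A z) :=
  (A.restrictScalars ℝ).contDiff

theorem homog_lin (A : V3 →L[ℂ] V3) : Homog (fun z => A z) :=
  ⟨(cd_lin A).contDiffOn, fun l z _ _ => map_smul A l z⟩

theorem homog_sub {Φ : V3 → V3} (h : Homog Φ) (A : V3 →L[ℂ] V3) : Homog (sub Φ A) :=
  ⟨h.1.sub (cd_lin A).contDiffOn, fun l z hl hz => by
    simp only [sub, h.2 l z hl hz, map_smul, smul_sub]⟩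

theorem hasFDerivAt_lin (A : V3 →L[ℂ] V3) (z : V3) :
    HasFDerivAt (fun z => A z) (A.restrictScalars ℝ) z :=
  (A.restrictScalars ℝ).hasFDerivAt

theorem fderiv_lin (A : V3 →L[ℂ] V3) (z v : V3) : fderiv ℝ (fun z => A z) z v = A v := by
  rw [(hasFDerivAt_lin A z).fderiv]
  rfl

theorem fderiv_sub' {Φ : V3 → V3} (h : Homog Φ) {z : V3} (hz : z ≠ 0) (A : V3 →L[ℂ] V3) (v : V3) :
    fderiv ℝ (sub Φ A) z v = fderiv ℝ Φ z v - A v := by
  have h1 : HasFDerivAt (sub Φ A) (fderiv ℝ Φ z - A.restrictScalars ℝ) z :=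
    (hasFDerivAt_hom h hz).sub (hasFDerivAt_lin A z)
  rw [h1.fderiv]
  rfl

theorem fderiv_hom {Φ : V3 → V3} (h : Homog Φ) {z : V3} (hz : z ≠ 0) {l : ℂ} (hl : l ≠ 0) (v : V3) :
    fderiv ℝ Φ (l • z) (l • v) = l • fderiv ℝ Φ z v := by
  have hline : ∀ x y : V3, HasDerivAt (fun t : ℝ => x + t • y) y 0 := by
    intro x y
    have := ((hasDerivAt_id (0 : ℝ)).smul_const y).const_add x
    simpa using this
  have h1 : HasDerivAt (fun t : ℝ => Φ (l • z + t • (l • v))) (fderiv ℝ Φ (l • z) (l • v)) 0 := by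
    refine HasFDerivAt.comp_hasDerivAt (0 : ℝ) (l := Φ) (l' := fderiv ℝ Φ (l • z)) ?_ (hline _ _)
    simpa using hasFDerivAt_hom h (smul_ne_zero hl hz)
  have h2 : HasDerivAt (fun t : ℝ => Φ (z + t • v)) (fderiv ℝ Φ z v) 0 := by
    refine HasFDerivAt.comp_hasDerivAt (0 : ℝ) (l := Φ) (l' := fderiv ℝ Φ z) ?_ (hline _ _)
    simpa using hasFDerivAt_hom h hz
  have h3 : HasDerivAt (fun t : ℝ => l • Φ (z + t • v)) (l • fderiv ℝ Φ z v) 0 := h2.const_smul l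
  refine h1.unique (h3.congr_of_eventuallyEq ?_)
  have h4 : ∀ᶠ t : ℝ in 𝓝 (0 : ℝ), z + t • v ≠ 0 := by
    refine (hline z v).continuousAt.eventually_ne ?_
    simpa using hz
  filter_upwards [h4] with t ht
  rw [← h.2 l _ hl ht, smul_add, smul_comm t l]

theorem exists_unit {Φ : V3 → V3} (h : Homog Φ) {z : V3} (hz : z ≠ 0) :
    ∃ y : V3, ‖y‖ = 1 ∧ ∀ v, fderiv ℝ Φ y v = fderiv ℝ Φ z v := by
  have hn : 0 < ‖z‖ := norm_pos_iff.2 hz
  have hl : ((‖z‖⁻¹ : ℝ) : ℂ) ≠ 0 := by exact_mod_cast (inv_pos.2 hn).ne'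
  refine ⟨((‖z‖⁻¹ : ℝ) : ℂ) • z, ?_, fun v => ?_⟩
  · rw [norm_smul, Complex.norm_real, Real.norm_eq_abs, abs_of_pos (inv_pos.2 hn),
      inv_mul_cancel₀ hn.ne']
  · have h1 := fderiv_hom h hz hl v
    have h2 : ∀ x : V3, ((‖z‖⁻¹ : ℝ) : ℂ) • x = (‖z‖⁻¹ : ℝ) • x := fun x => Complex.coe_smul _ _
    rw [h2 v, h2 (fderiv ℝ Φ z v), map_smul] at h1
    exact smul_right_injective V3 (inv_pos.2 hn).ne' h1

theorem cts_fderiv {Φ : V3 → V3} (h : Homog Φ) : ContinuousOn (fderiv ℝ Φ) (sphere (0 : V3) 1) := by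
  refine (h.1.continuousOn_fderiv_of_isOpen isOpen_compl_singleton (by simp)).mono fun z hz => ?_
  rintro rfl
  rw [mem_sphere_zero_iff_norm, norm_zero] at hz
  exact zero_ne_one hz

theorem exists_upper {Φ : V3 → V3} (h : Homog Φ) :
    ∃ C : ℝ, ∀ z : V3, z ≠ 0 → ∀ v, ‖fderiv ℝ Φ z v‖ ≤ C * ‖v‖ := by
  obtain ⟨C, hC⟩ := (isCompact_sphere (0 : V3) 1).exists_bound_of_continuousOn (cts_fderiv h)
  refine ⟨C, fun z hz v => ?_⟩
  obtain ⟨y, hy, hyz⟩ := exists_unit h hz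
  rw [← hyz]
  refine ((fderiv ℝ Φ y).le_opNorm v).trans ?_
  gcongr
  exact hC y (mem_sphere_zero_iff_norm.2 hy)

theorem exists_lower {Φ : V3 → V3} (h : Homog Φ) {A : V3 →L[ℂ] V3} (hA : A ∈ Om Φ) :
    ∃ m : ℝ, 0 < m ∧ ∀ z : V3, z ≠ 0 → ∀ v, m * ‖v‖ ≤ ‖fderiv ℝ Φ z v - A v‖ := by
  have hS : IsCompact (sphere (0 : V3) 1 ×ˢ sphere (0 : V3) 1) :=
    (isCompact_sphere _ _).prod (isCompact_sphere _ _)
  have hne : (sphere (0 : V3) 1).Nonempty := NormedSpace.sphere_nonempty.2 zero_le_one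
  have hc : ContinuousOn (fun q : V3 × V3 => ‖fderiv ℝ Φ q.1 q.2 - A q.2‖)
      (sphere (0 : V3) 1 ×ˢ sphere (0 : V3) 1) := by
    refine ContinuousOn.norm (ContinuousOn.sub ?_ (A.continuous.comp continuous_snd).continuousOn)
    exact ((cts_fderiv h).comp continuous_fst.continuousOn fun q hq => hq.1).clm_apply
      continuous_snd.continuousOn
  obtain ⟨q, hq, hmin⟩ := hS.exists_isMinOn (hne.prod hne) hc
  have hz0 : ∀ z : V3, z ∈ sphere (0 : V3) 1 → z ≠ 0 := by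
    rintro z hz rfl
    rw [mem_sphere_zero_iff_norm, norm_zero] at hz
    exact zero_ne_one hz
  have hpos : 0 < ‖fderiv ℝ Φ q.1 q.2 - A q.2‖ := by
    rw [norm_pos_iff]
    intro h0
    exact hz0 _ hq.2 (hA q.1 (hz0 _ hq.1) q.2 (sub_eq_zero.1 h0))
  refine ⟨_, hpos, fun z hz v => ?_⟩
  rcases eq_or_ne v 0 with rfl | hv
  · simp
  obtain ⟨y, hy, hyz⟩ := exists_unit h hz
  rw [← hyz]
  have hn : 0 < ‖v‖ := norm_pos_iff.2 hv
  have h1 : ‖(‖v‖⁻¹ : ℝ) • v‖ = 1 := by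
    rw [norm_smul, Real.norm_eq_abs, abs_of_pos (inv_pos.2 hn), inv_mul_cancel₀ hn.ne']
  have h2 : ‖fderiv ℝ Φ q.1 q.2 - A q.2‖ ≤
      ‖fderiv ℝ Φ y ((‖v‖⁻¹ : ℝ) • v) - A ((‖v‖⁻¹ : ℝ) • v)‖ :=
    hmin (show (y, (‖v‖⁻¹ : ℝ) • v) ∈ _ from
      ⟨mem_sphere_zero_iff_norm.2 hy, mem_sphere_zero_iff_norm.2 h1⟩)
  have h3 : A ((‖v‖⁻¹ : ℝ) • v) = (‖v‖⁻¹ : ℝ) • A v := (A.restrictScalars ℝ).map_smul _ _
  rw [map_smul, h3, ← smul_sub, norm_smul, Real.norm_eq_abs, abs_of_pos (inv_pos.2 hn)] at h2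
  calc _ ≤ ‖v‖⁻¹ * ‖fderiv ℝ Φ y v - A v‖ * ‖v‖ := by gcongr
    _ = _ := by field_simp

theorem noNeg_sub {Φ : V3 → V3} (h : Homog Φ) {A B : V3 →L[ℂ] V3} {m : ℝ} (hm : 0 < m)
    (hA : ∀ z : V3, z ≠ 0 → ∀ v, m * ‖v‖ ≤ ‖fderiv ℝ Φ z v - A v‖) (hB : ‖B - A‖ < m) :
    NoNeg (sub Φ A) (sub Φ B) ∧ NoNeg (sub Φ B) (sub Φ A) := by
  have key : ∀ z : V3, z ≠ 0 → ∀ t ∈ Icc (0 : ℝ) 1, ∀ v,
      fderiv ℝ Φ z v - A v - t • (B - A) v = 0 → v = 0 := by
    intro z hz t ht v hv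
    by_contra hv0
    have hn : 0 < ‖v‖ := norm_pos_iff.2 hv0
    have h1 := hA z hz v
    rw [sub_eq_zero.1 hv, norm_smul, Real.norm_eq_abs, abs_of_nonneg ht.1] at h1
    have h2 : t * ‖(B - A) v‖ ≤ 1 * (‖B - A‖ * ‖v‖) := by
      gcongr
      · exact ht.2
      · exact (B - A).le_opNorm v
    have h3 : ‖B - A‖ * ‖v‖ < m * ‖v‖ := by gcongr
    linarith
  refine ⟨fun z hz t ht v hv => key z hz t ht v ?_, fun z hz t ht v hv =>
    key z hz (1 - t) ⟨by linarith [ht.2], by linarith [ht.1]⟩ v ?_⟩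
  · rw [fderiv_sub' h hz, fderiv_sub' h hz] at hv
    rw [← hv, sub_apply, sub_smul, one_smul, smul_sub, smul_sub, smul_sub]
    abel
  · rw [fderiv_sub' h hz, fderiv_sub' h hz] at hv
    rw [← hv, sub_apply, sub_smul, one_smul, smul_sub, smul_sub, smul_sub,
      sub_smul, sub_smul, one_smul, one_smul]
    abel

/-- a scalar multiple of an injective matrix has no negative eigenvalues -/
theorem exists_scalar {A : V3 →L[ℂ] V3} (hA : ∀ v, A v = 0 → v = 0) :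
    ∃ κ : ℂ, κ ≠ 0 ∧ NoNeg (fun z => z) (fun z => (κ • A) z) := by
  have hfin : ((fun μ : ℂ => -μ.im / μ.re) ''
      {μ | Module.End.HasEigenvalue (A : V3 →ₗ[ℂ] V3) μ}).Finite :=
    (Module.End.finite_hasEigenvalue _).image _
  obtain ⟨s, hs⟩ := hfin.infinite_compl.nonempty
  have hκ : (1 + s * Complex.I : ℂ) ≠ 0 := by
    intro h
    have := congrArg Complex.re h
    simp at this
  refine ⟨1 + s * Complex.I, hκ, fun z hz t ht v hv => ?_⟩
  have hid : fderiv ℝ (fun z : V3 => z) z v = v := by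
    rw [fderiv_fun_id]
    rfl
  rw [hid, fderiv_lin] at hv
  by_contra hv0
  rcases eq_or_lt_of_le ht.1 with ht0 | ht0
  · rw [← ht0] at hv
    simp at hv
    exact hv0 hv
  have ht' : (t : ℂ) ≠ 0 := by exact_mod_cast ht0.ne'
  obtain ⟨μ, hμ⟩ : ∃ μ : ℂ, μ = -(1 - t) / (t * (1 + s * Complex.I)) := ⟨_, rfl⟩
  have h1 : A v = μ • v := by
    have h2 : ((1 - t : ℝ) : ℂ) • v + ((t : ℝ) : ℂ) • ((1 + s * Complex.I) • A v) = 0 := by
      rw [Complex.coe_smul, Complex.coe_smul]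
      exact hv
    have h3 : ((t : ℂ) * (1 + s * Complex.I)) • A v = (-((1 - t : ℝ) : ℂ)) • v := by
      rw [mul_smul, neg_smul]
      exact eq_neg_of_add_eq_zero_right h2
    have h4 : A v = ((t : ℂ) * (1 + s * Complex.I))⁻¹ • ((t : ℂ) * (1 + s * Complex.I)) • A v := by
      rw [smul_smul, inv_mul_cancel₀ (mul_ne_zero ht' hκ), one_smul]
    rw [h4, h3, smul_smul, hμ]
    congr 1
    push_cast
    field_simp
  have hμ0 : μ ≠ 0 := by
    intro h0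
    rw [h0, zero_smul] at h1
    exact hv0 (hA v h1)
  have he : Module.End.HasEigenvalue (A : V3 →ₗ[ℂ] V3) μ :=
    Module.End.hasEigenvalue_of_hasEigenvector (x := v) ⟨Module.End.mem_eigenspace_iff.2 h1, hv0⟩
  have h5 : μ * (1 + s * Complex.I) = ((-(1 - t) / t : ℝ) : ℂ) := by
    rw [hμ]
    push_cast
    field_simp
  have h6 := congrArg Complex.im h5
  simp at h6
  have h7 : μ.re ≠ 0 := by
    intro h0
    rw [h0] at h6
    have h8 : μ.im = 0 := by linarith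
    exact hμ0 (Complex.ext (by simpa using h0) (by simpa using h8))
  refine hs ⟨μ, he, ?_⟩
  simp only
  field_simp
  linarith

end Pool.Agent.L7h45.PI
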