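import Pool.Agent.L7h45.PI.Der
import Pool.Agent.L7h45.PI.Path

/-!
# Maps of `CP²` which turn no tangent vector too much
-/

set_option autoImplicit false
set_option linter.unusedSectionVars false

open Set Filter Topology Metric
open scoped ContDiff ComplexConjugate

noncomputable section

namespace Pool.Agent.L7h45.PI

open Pool.Agent.L7h32.AA Pool.Agent.L7h32.PI

/-- no tangent vector is turned too much -/
def SmallTurns (F₀ F₁ : M3 → M3) : Prop :=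
  ∀ P ∈ CP2, ∀ p, Tangent P p → p ≠ 0 → ∀ (u w : Fin 3 → ℂ) (c : ℝ), Proj u (F₀ P) →
    Proj w (F₁ P) → ip w u = c → 0 < c →
    -(2 * c / (1 + c ^ 2) *
      (len (lift (fderiv ℝ F₀ P p) u) * len (lift (fderiv ℝ F₁ P p) w))) <
      (ip (transport u w (lift (fderiv ℝ F₀ P p) u)) (lift (fderiv ℝ F₁ P p) w)).re

theorem tr2_pos {P Q : M3} (hP : P ∈ CP2) (hQ : Q ∈ CP2) (h : tr2 P Q ≠ 0) : 0 < (tr2 P Q).re := by
  obtain ⟨u, w, c, hu, hw, huw, hc⟩ := exists_pair hP hQ h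
  rw [tr2_proj hu hw, huw, Complex.conj_ofReal, ← Complex.ofReal_mul, Complex.ofReal_re]
  positivity

theorem cd_entry {F : M3 → M3} (hF : ContDiff ℝ ∞ F) (i j : Fin 3) :
    ContDiff ℝ ∞ (fun x => F x i j) := by
  have h1 := contDiff_pi.1 hF i
  exact contDiff_pi.1 h1 j

theorem cd_tr2 {F₀ F₁ : M3 → M3} (h0 : ContDiff ℝ ∞ F₀) (h1 : ContDiff ℝ ∞ F₁) :
    ContDiff ℝ ∞ (fun x => (tr2 (F₀ x) (F₁ x)).re) := by
  have h : ContDiff ℝ ∞ (fun x => tr2 (F₀ x) (F₁ x)) :=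
    ContDiff.sum fun i _ => ContDiff.sum fun k _ => (cd_entry h0 i k).mul (cd_entry h1 k i)
  exact Complex.reCLM.contDiff.comp h

theorem cd_anti {F₀ F₁ : M3 → M3} (h0 : ContDiff ℝ ∞ F₀) (h1 : ContDiff ℝ ∞ F₁) (i j : Fin 3) :
    ContDiff ℝ ∞ (fun x => anti (F₀ x) (F₁ x) i j) :=
  ContDiff.sum fun k _ => ((cd_entry h0 i k).mul (cd_entry h1 k j)).add
    ((cd_entry h1 i k).mul (cd_entry h0 k j))

/-- the path -/
def MM (F₀ F₁ : M3 → M3) (p : ℝ × M3) : M3 := kk (Real.smoothTransition p.1) (F₀ p.2) (F₁ p.2)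

/-- the domain -/
def VV (F₀ F₁ : M3 → M3) : Set M3 := {x | 0 < (tr2 (F₀ x) (F₁ x)).re}

theorem VV_open {F₀ F₁ : M3 → M3} (h0 : ContDiff ℝ ∞ F₀) (h1 : ContDiff ℝ ∞ F₁) :
    IsOpen (VV F₀ F₁) :=
  isOpen_lt continuous_const (cd_tr2 h0 h1).continuous

theorem cd_cc {F₀ F₁ : M3 → M3} (h0 : ContDiff ℝ ∞ F₀) (h1 : ContDiff ℝ ∞ F₁) :
    ContDiffOn ℝ ∞ (fun x => cc (F₀ x) (F₁ x)) (VV F₀ F₁) :=
  (cd_tr2 h0 h1).contDiffOn.sqrt fun x hx => ne_of_gt hx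

theorem cd_MM {F₀ F₁ : M3 → M3} (h0 : ContDiff ℝ ∞ F₀) (h1 : ContDiff ℝ ∞ F₁) :
    ContDiffOn ℝ ∞ (MM F₀ F₁) (univ ×ˢ VV F₀ F₁) := by
  have hσ : ContDiffOn ℝ ∞ (fun p : ℝ × M3 => Real.smoothTransition p.1) (univ ×ˢ VV F₀ F₁) :=
    (Real.smoothTransition.contDiff.comp contDiff_fst).contDiffOn
  have hc : ContDiffOn ℝ ∞ (fun p : ℝ × M3 => cc (F₀ p.2) (F₁ p.2)) (univ ×ˢ VV F₀ F₁) :=
    (cd_cc h0 h1).comp contDiff_snd.contDiffOn fun p hp => hp.2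
  have hden : ContDiffOn ℝ ∞ (fun p : ℝ × M3 =>
      den (Real.smoothTransition p.1) (F₀ p.2) (F₁ p.2)) (univ ×ˢ VV F₀ F₁) := by
    unfold den
    exact (((contDiffOn_const.sub hσ).pow 2).add (hσ.pow 2)).add
      (((contDiffOn_const.mul hσ).mul (contDiffOn_const.sub hσ)).mul hc)
  have hdinv : ContDiffOn ℝ ∞ (fun p : ℝ × M3 =>
      (((den (Real.smoothTransition p.1) (F₀ p.2) (F₁ p.2))⁻¹ : ℝ) : ℂ)) (univ ×ˢ VV F₀ F₁) :=
    Complex.ofRealCLM.contDiff.comp_contDiffOn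
      (hden.inv fun p _ => (den_pos (step01 p.1).1 (step01 p.1).2 _ _).ne')
  have hq : ContDiffOn ℝ ∞ (fun p : ℝ × M3 =>
      ((Real.smoothTransition p.1 * (1 - Real.smoothTransition p.1) *
        (cc (F₀ p.2) (F₁ p.2))⁻¹ : ℝ) : ℂ)) (univ ×ˢ VV F₀ F₁) :=
    Complex.ofRealCLM.contDiff.comp_contDiffOn ((hσ.mul (contDiffOn_const.sub hσ)).mul
      (hc.inv fun p hp => (Real.sqrt_pos.2 hp.2).ne'))
  have h1t : ContDiffOn ℝ ∞ (fun p : ℝ × M3 => (((1 - Real.smoothTransition p.1) ^ 2 : ℝ) : ℂ))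
      (univ ×ˢ VV F₀ F₁) :=
    Complex.ofRealCLM.contDiff.comp_contDiffOn ((contDiffOn_const.sub hσ).pow 2)
  have ht : ContDiffOn ℝ ∞ (fun p : ℝ × M3 => ((Real.smoothTransition p.1 ^ 2 : ℝ) : ℂ))
      (univ ×ˢ VV F₀ F₁) :=
    Complex.ofRealCLM.contDiff.comp_contDiffOn (hσ.pow 2)
  rw [contDiffOn_pi]
  intro i
  rw [contDiffOn_pi]
  intro j
  have e0 : ContDiffOn ℝ ∞ (fun p : ℝ × M3 => F₀ p.2 i j) (univ ×ˢ VV F₀ F₁) :=
    ((cd_entry h0 i j).comp contDiff_snd).contDiffOn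
  have e1 : ContDiffOn ℝ ∞ (fun p : ℝ × M3 => F₁ p.2 i j) (univ ×ˢ VV F₀ F₁) :=
    ((cd_entry h1 i j).comp contDiff_snd).contDiffOn
  have e2 : ContDiffOn ℝ ∞ (fun p : ℝ × M3 => anti (F₀ p.2) (F₁ p.2) i j) (univ ×ˢ VV F₀ F₁) :=
    ((cd_anti h0 h1 i j).comp contDiff_snd).contDiffOn
  refine ((((h1t.mul e0).add (ht.mul e1)).add (hq.mul e2)).mul hdinv).congr fun p _ => ?_
  simp only [MM, kk, num]
  push_cast
  ring

variable {U : Set M3} {N : M3 → M3}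

theorem curve (hR : Ret CP2 U N) {P p : M3} (hP : P ∈ CP2) (hp : fderiv ℝ N P p = p) :
    HasDerivAt (fun s : ℝ => N (P + s • p)) p 0 ∧ (∀ᶠ s in 𝓝 (0 : ℝ), N (P + s • p) ∈ CP2) ∧
      N (P + (0 : ℝ) • p) = P := by
  have hU := hR.opn.mem_nhds (hR.sub hP)
  have hN := ((hR.smooth.contDiffAt hU).differentiableAt (by simp)).hasFDerivAt
  have hline : HasDerivAt (fun t : ℝ => P + t • p) p 0 := by
    have := ((hasDerivAt_id (0 : ℝ)).smul_const p).const_add P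
    simpa using this
  refine ⟨?_, ?_, by rw [zero_smul, add_zero, hR.fix P hP]⟩
  · have : HasDerivAt (fun t : ℝ => N (P + t • p)) (fderiv ℝ N P p) 0 := by
      refine HasFDerivAt.comp_hasDerivAt (0 : ℝ) (l := N) (l' := fderiv ℝ N P) ?_ hline
      simpa using hN
    rwa [hp] at this
  · have h1 : ∀ᶠ s in 𝓝 (0 : ℝ), P + s • p ∈ U := by
      refine hline.continuousAt.eventually_mem ?_
      simpa using hU
    filter_upwards [h1] with s hs
    exact hR.maps _ hs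

theorem comp_curve {γ : ℝ → M3} {P p : M3} (hγ : HasDerivAt γ p 0) (h0 : γ 0 = P) {F : M3 → M3}
    (hF : DifferentiableAt ℝ F P) : HasDerivAt (fun s => F (γ s)) (fderiv ℝ F P p) 0 := by
  refine HasFDerivAt.comp_hasDerivAt (0 : ℝ) (l := F) (l' := fderiv ℝ F P) ?_ hγ
  rw [h0]
  exact hF.hasFDerivAt

theorem turn_iso {F₀ F₁ : M3 → M3} (hF₀ : IsDiff CP2 F₀) (hF₁ : ContDiff ℝ ∞ F₁)
    (hm : ∀ P ∈ CP2, F₁ P ∈ CP2) (hne : ∀ P ∈ CP2, tr2 (F₀ P) (F₁ P) ≠ 0)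
    (hT : SmallTurns F₀ F₁) : SmIso CP2 F₀ F₁ := by
  obtain ⟨U, N, hR⟩ := Pool.Agent.L7h50.PI.s_CPR
  obtain ⟨hc0, hm0, G, hG, hGF⟩ := hF₀
  have hVV : CP2 ⊆ VV F₀ F₁ := fun P hP => tr2_pos (hm0 P hP) (hm P hP) (hne P hP)
  have hM0 : ∀ P, MM F₀ F₁ (0, P) = F₀ P := fun P => by
    simp only [MM, Real.smoothTransition.zero, kk_zero]
  have hM1 : ∀ P, MM F₀ F₁ (1, P) = F₁ P := fun P => by
    simp only [MM, Real.smoothTransition.one, kk_one]
  have key := smooth_path (M := MM F₀ F₁) hR Pool.Agent.L7h50.PI.s_CPC.1 (VV_open hc0 hF₁) hVV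
    (cd_MM hc0 hF₁) (fun t _ P hP => kk_mem (step01 t).1 (step01 t).2 (hm0 P hP) (hm P hP)
      (hne P hP)) ?_ ?_
  · obtain ⟨M, m1, m2, m3, m4⟩ := key
    exact ⟨M, m1, m2, fun x hx => (m3 x hx).trans (hM0 x), fun x hx => (m4 x hx).trans (hM1 x)⟩
  · intro t _ P hP p hp hd
    by_contra hp0
    obtain ⟨hγ, hγm, hγ0⟩ := curve hR hP hp
    have hTan : Tangent P p := by
      have := tan_curve hγ hγm
      rwa [hγ0] at this
    have hy := comp_curve hγ hγ0 (hc0.differentiable (by simp) P)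
    have hz := comp_curve hγ hγ0 (hF₁.differentiable (by simp) P)
    have hMd : DifferentiableAt ℝ (fun y => MM F₀ F₁ (t, y)) P := by
      have h1 : ContDiffAt ℝ ∞ (MM F₀ F₁) (t, P) :=
        (cd_MM hc0 hF₁).contDiffAt ((isOpen_univ.prod (VV_open hc0 hF₁)).mem_nhds
          ⟨mem_univ _, hVV hP⟩)
      have h2 : ContDiffAt ℝ ∞ (fun y => MM F₀ F₁ (t, y)) P :=
        h1.comp P (contDiff_const.prodMk contDiff_id).contDiffAt
      exact h2.differentiableAt (by simp)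
    have hk := comp_curve hγ hγ0 hMd
    rw [hd] at hk
    obtain ⟨u, w, c, hu, hw, huw, hc⟩ := exists_pair (hm0 P hP) (hm P hP) (hne P hP)
    have hTT := hT P hP p hTan hp0 u w c hu hw huw hc
    rcases eq_or_lt_of_le (step01 t).1 with ht0 | ht0
    · have e1 : (fun s : ℝ => MM F₀ F₁ (t, N (P + s • p))) = fun s : ℝ => F₀ (N (P + s • p)) := by
        funext s
        simp only [MM, ← ht0, kk_zero]
      rw [e1] at hk
      have e2 := hy.unique hk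
      have e3 := comp_curve hk (by rw [hγ0]) (hG.differentiable (by simp) (F₀ P))
      rw [map_zero] at e3
      refine hp0 (hγ.unique (e3.congr_of_eventuallyEq ?_))
      filter_upwards [hγm] with s hs
      exact (hGF _ hs).2.1.symm
    rcases eq_or_lt_of_le (step01 t).2 with ht1 | ht1
    · have e1 : (fun s : ℝ => MM F₀ F₁ (t, N (P + s • p))) = fun s : ℝ => F₁ (N (P + s • p)) := by
        funext s
        simp only [MM, ht1, kk_one]
      rw [e1] at hk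
      have e2 := hz.unique hk
      have e3 : lift (fderiv ℝ F₁ P p) w = fun _ => 0 := by
        rw [e2]
        funext i
        simp [lift]
      rw [e3] at hTT
      simp [ip, len] at hTT
    · have h1 := der_core (t := Real.smoothTransition t) ht0 ht1 hy hz
        (by filter_upwards [hγm] with s hs using hm0 _ hs)
        (by filter_upwards [hγm] with s hs using hm _ hs)
        (by rw [hγ0]; exact hu) (by rw [hγ0]; exact hw) huw hc hk
      exact absurd hTT (not_lt.2 h1)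
  · intro x hx y hy hxy
    simp only [hM0] at hxy
    rw [← (hGF x hx).2.1, hxy, (hGF y hy).2.1]

end Pool.Agent.L7h45.PI
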