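import Mathlib

/-!
# Vectors in `ℂ³`: the inequality behind the theorem on small turns
-/

set_option autoImplicit false
set_option linter.unusedSectionVars false

open ComplexConjugate

noncomputable section

namespace Pool.Agent.L7h45.PI

/-- `∑ x̄_i y_i` -/
def ip (x y : Fin 3 → ℂ) : ℂ := ∑ i, star (x i) * y i

/-- length -/
def len (x : Fin 3 → ℂ) : ℝ := √(ip x x).re

/-- parallel transport from the line of `u` to the line of `w` -/
def transport (u w a : Fin 3 → ℂ) : Fin 3 → ℂ :=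
  fun i => a i - ip w a / (1 + ip w u) * (u i + w i)

theorem ip_conj (x y : Fin 3 → ℂ) : conj (ip x y) = ip y x := by
  simp only [ip, Fin.sum_univ_three, Complex.star_def, map_add, map_mul, Complex.conj_conj]
  ring

theorem ip_self (x : Fin 3 → ℂ) : ip x x = ((∑ i, ‖x i‖ ^ 2 : ℝ) : ℂ) := by
  simp only [ip, Complex.star_def, Complex.ofReal_sum]
  refine Finset.sum_congr rfl fun i _ => ?_
  rw [mul_comm, Complex.mul_conj, Complex.normSq_eq_norm_sq]

theorem ip_self_re (x : Fin 3 → ℂ) : (ip x x).re = ∑ i, ‖x i‖ ^ 2 := by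
  rw [ip_self, Complex.ofReal_re]

theorem ip_self_eq (x : Fin 3 → ℂ) : ip x x = ((ip x x).re : ℂ) := by
  rw [ip_self_re, ip_self]

theorem ip_self_nonneg (x : Fin 3 → ℂ) : 0 ≤ (ip x x).re := by
  rw [ip_self_re]
  positivity

theorem ip_cs (x y : Fin 3 → ℂ) : ‖ip x y‖ ^ 2 ≤ (ip x x).re * (ip y y).re := by
  rw [ip_self_re, ip_self_re]
  have h1 : ‖ip x y‖ ≤ ∑ i, ‖x i‖ * ‖y i‖ := by
    unfold ip
    refine (norm_sum_le _ _).trans (le_of_eq ?_)
    refine Finset.sum_congr rfl fun i _ => ?_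
    rw [norm_mul, norm_star]
  have h2 := Finset.sum_mul_sq_le_sq_mul_sq Finset.univ (fun i => ‖x i‖) (fun i => ‖y i‖)
  exact (pow_le_pow_left₀ (norm_nonneg _) h1 2).trans h2

theorem len_sq (x : Fin 3 → ℂ) : len x ^ 2 = (ip x x).re := Real.sq_sqrt (ip_self_nonneg x)

theorem len_nonneg (x : Fin 3 → ℂ) : 0 ≤ len x := Real.sqrt_nonneg _

/-- Cauchy-Schwarz for a vector orthogonal to `u` -/
theorem ip_perp {u w a : Fin 3 → ℂ} {c : ℝ} (hu : ip u u = 1) (hw : ip w w = 1) (huw : ip w u = c)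
    (ha : ip u a = 0) : (ip w a).re ^ 2 + (ip w a).im ^ 2 ≤ (1 - c ^ 2) * (ip a a).re := by
  have huw' : ip u w = c := by rw [← ip_conj, huw, Complex.conj_ofReal]
  obtain ⟨z, hz⟩ : ∃ z : Fin 3 → ℂ, z = fun i => w i - c * u i := ⟨_, rfl⟩
  have h1 : ip z a = ip w a := by
    have : ip z a = ip w a - c * ip u a := by
      simp only [hz, ip, Fin.sum_univ_three, Complex.star_def, map_sub, map_mul, Complex.conj_ofReal]
      ring
    rw [this, ha, mul_zero, sub_zero]
  have h2 : ip z z = ((1 - c ^ 2 : ℝ) : ℂ) := by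
    have : ip z z = ip w w - c * ip w u - c * ip u w + c ^ 2 * ip u u := by
      simp only [hz, ip, Fin.sum_univ_three, Complex.star_def, map_sub, map_mul, Complex.conj_ofReal]
      ring
    rw [this, hw, huw, huw', hu]
    push_cast
    ring
  have h3 := ip_cs z a
  rw [h1, h2, Complex.ofReal_re, ← Complex.normSq_eq_norm_sq, Complex.normSq_apply] at h3
  nlinarith

theorem c_le_one {u w : Fin 3 → ℂ} {c : ℝ} (hu : ip u u = 1) (hw : ip w w = 1) (huw : ip w u = c) :
    c ^ 2 ≤ 1 := by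
  have h := ip_cs w u
  rw [huw, hu, hw, Complex.one_re, Complex.norm_real, Real.norm_eq_abs, sq_abs] at h
  linarith

/-- the real inequality -/
theorem real_core {c t A2 B2 D ρ τ : ℝ} (hc0 : 0 < c) (hc1 : c ≤ 1) (ht0 : 0 < t) (ht1 : t < 1)
    (h1 : A2 + D = ρ ^ 2 * (t * ((1 - t) * c + t)) + τ ^ 2 * ((1 - t) * (t * c + (1 - t))))
    (h2 : D + B2 = ρ ^ 2 * ((1 - t) * ((1 - t) + t * c)) + τ ^ 2 * (t * (t + (1 - t) * c)))
    (h3 : (ρ * ((1 - t) * c + t)) ^ 2 + (τ * (t * c + (1 - t))) ^ 2 ≤ (1 - c ^ 2) * A2) :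
    D - (ρ ^ 2 + τ ^ 2) * (((1 - t) * c + t) * ((1 - t) + t * c)) / (1 + c) ≤
      -(c / (1 + c ^ 2) * (A2 + B2)) := by
  have hc2 : 0 < 1 + c ^ 2 := by positivity
  have hc3 : 0 < 1 + c := by positivity
  rw [← sub_nonneg]
  have key : -(c / (1 + c ^ 2) * (A2 + B2)) -
      (D - (ρ ^ 2 + τ ^ 2) * (((1 - t) * c + t) * ((1 - t) + t * c)) / (1 + c)) =
      ((1 - c) * ((1 - c ^ 2) * A2 - ((ρ * ((1 - t) * c + t)) ^ 2 + (τ * (t * c + (1 - t))) ^ 2)) +
        (1 - c) * (1 + c) ^ 2 * (t * (1 - t) * (ρ ^ 2 + τ ^ 2))) / ((1 + c) * (1 + c ^ 2)) := by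
    have e1 : D = ρ ^ 2 * (t * ((1 - t) * c + t)) + τ ^ 2 * ((1 - t) * (t * c + (1 - t))) - A2 := by
      linarith
    have e2 : B2 = ρ ^ 2 * ((1 - t) * ((1 - t) + t * c)) + τ ^ 2 * (t * (t + (1 - t) * c)) - D := by
      linarith
    rw [e2, e1]
    field_simp
    ring
  rw [key]
  apply div_nonneg _ (by positivity)
  have h4 : 0 ≤ 1 - c := by linarith
  have h5 : 0 ≤ 1 - t := by linarith
  have h6 : 0 ≤ (1 - c ^ 2) * A2 - ((ρ * ((1 - t) * c + t)) ^ 2 + (τ * (t * c + (1 - t))) ^ 2) := by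
    linarith
  positivity

theorem core {c t β : ℝ} (hc0 : 0 < c) (ht0 : 0 < t) (ht1 : t < 1) {u w a b : Fin 3 → ℂ} {ν : ℂ}
    (hu : ip u u = 1) (hw : ip w w = 1) (huw : ip w u = c) (ha : ip u a = 0) (hb : ip w b = 0)
    (hβ : c * β = (ip w a).im - (ip u b).im)
    (hx : ∀ i, (1 - t) * a i + t * (b i + Complex.I * β * w i) = ν * ((1 - t) * u i + t * w i)) :
    (ip (transport u w a) b).re ≤ -(2 * c / (1 + c ^ 2) * (len a * len b)) := by
  have huw' : ip u w = c := by rw [← ip_conj, huw, Complex.conj_ofReal]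
  have hau : ip a u = 0 := by rw [← ip_conj, ha, map_zero]
  have hbw : ip b w = 0 := by rw [← ip_conj, hb, map_zero]
  have hE : ∀ x : Fin 3 → ℂ, (1 - t) * ip x a + t * (ip x b + Complex.I * β * ip x w) =
      ν * ((1 - t) * ip x u + t * ip x w) := by
    intro x
    have e1 : ip x (fun i => (1 - t) * a i + t * (b i + Complex.I * β * w i)) =
        (1 - t) * ip x a + t * (ip x b + Complex.I * β * ip x w) := by
      simp only [ip, Fin.sum_univ_three]
      ring
    have e2 : ip x (fun i => ν * ((1 - t) * u i + t * w i)) =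
        ν * ((1 - t) * ip x u + t * ip x w) := by
      simp only [ip, Fin.sum_univ_three]
      ring
    rw [← e1, ← e2]
    congr 1
    exact funext hx
  have hT : ip (transport u w a) b = ip a b - conj (ip w a) * ip u b / (1 + c) := by
    have : ip (transport u w a) b = ip a b - conj (ip w a / (1 + ip w u)) * (ip u b + ip w b) := by
      simp only [transport, ip, Fin.sum_univ_three, Complex.star_def, map_sub, map_mul, map_add,
        map_div₀, Complex.conj_conj, map_one]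
      ring
    rw [this, huw, hb, add_zero, map_div₀, map_add, map_one, Complex.conj_ofReal]
    ring
  have E1 := hE w
  have E2 := hE u
  have E3 := hE a
  have E4 := hE b
  rw [hb, hw, huw] at E1
  rw [ha, hu, huw'] at E2
  rw [hau, ← ip_conj w a, ip_self_eq a] at E3
  rw [hbw, ← ip_conj a b, ← ip_conj u b, ip_self_eq b] at E4
  have hcs := ip_perp hu hw huw ha
  have hc1 : c ≤ 1 := by
    have := c_le_one hu hw huw
    nlinarith
  have hla := len_sq a
  have hlb := len_sq b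
  have hla0 := len_nonneg a
  have hlb0 := len_nonneg b
  rw [hT]
  generalize ip w a = m at *
  generalize ip u b = n at *
  generalize ip a b = d at *
  rw [← hla] at E3 hcs
  rw [← hlb] at E4
  generalize len a = α at *
  generalize len b = γ at *
  have e1r := congrArg Complex.re E1
  have e1i := congrArg Complex.im E1
  have e2r := congrArg Complex.re E2
  have e2i := congrArg Complex.im E2
  have e3r := congrArg Complex.re E3
  have e4r := congrArg Complex.re E4
  have hTr : (d - conj m * n / (1 + c)).re = d.re - (m.re * n.re + m.im * n.im) / (1 + c) := by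
    have : (1 + (c : ℂ)) = ((1 + c : ℝ) : ℂ) := by push_cast; ring
    rw [this, Complex.sub_re, Complex.div_ofReal_re]
    simp
  rw [hTr]
  simp only [Complex.add_re, Complex.add_im, Complex.mul_re, Complex.mul_im, Complex.sub_re,
    Complex.sub_im, Complex.one_re, Complex.one_im, Complex.ofReal_re, Complex.ofReal_im,
    Complex.I_re, Complex.I_im, Complex.conj_re, Complex.conj_im, Complex.zero_re,
    Complex.zero_im] at e1r e1i e2r e2i e3r e4r
  obtain ⟨ρ, hρ⟩ : ∃ ρ : ℝ, ρ = ν.re := ⟨_, rfl⟩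
  obtain ⟨κ, hκ⟩ : ∃ κ : ℝ, κ = ν.im := ⟨_, rfl⟩
  have hs : 0 < 1 - t := by linarith
  obtain ⟨τ, hτ⟩ : ∃ τ : ℝ, τ = κ * (1 - t) / t := ⟨_, rfl⟩
  have hκτ : κ = τ * t / (1 - t) := by rw [hτ]; field_simp
  rw [← hρ, ← hκ] at e1r e1i e2r e2i e3r e4r
  have f1r : (1 - t) * m.re = ρ * ((1 - t) * c + t) := by linear_combination e1r
  have f1i : (1 - t) * m.im + t * β = κ * ((1 - t) * c + t) := by linear_combination e1i
  have f2r : t * n.re = ρ * ((1 - t) + t * c) := by linear_combination e2r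
  have f2i : t * (n.im + β * c) = κ * ((1 - t) + t * c) := by linear_combination e2i
  have f3 : (1 - t) * α ^ 2 + t * (d.re + β * m.im) = ρ * (t * m.re) + κ * (t * m.im) := by
    linear_combination e3r
  have f4 : (1 - t) * d.re + t * γ ^ 2 = (1 - t) * (ρ * n.re + κ * n.im) := by
    linear_combination e4r
  have hβ2 : β * t ^ 2 = κ * (t ^ 2 - (1 - t) ^ 2) := by
    linear_combination t * f1i - (1 - t) * f2i + t * (1 - t) * hβ
  have hκ2 : κ * (1 - t) = τ * t := by rw [hτ]; field_simp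
  have hκβ : (κ - β) * t = τ * (1 - t) := by
    rw [hτ]
    field_simp
    linear_combination -hβ2
  have g1 : (1 - t) * m.im = τ * (t * c + (1 - t)) := by
    linear_combination f1i + c * hκ2 + hκβ
  have g2 : t * n.im = τ * (t + (1 - t) * c) := by
    linear_combination f2i + c * hκβ + hκ2
  have h1 : (1 - t) ^ 2 * α ^ 2 + t * (1 - t) * d.re =
      ρ ^ 2 * (t * ((1 - t) * c + t)) + τ ^ 2 * ((1 - t) * (t * c + (1 - t))) := by
    linear_combination (1 - t) * f3 + ρ * t * f1r + (κ - β) * t * g1 +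
      τ * (t * c + (1 - t)) * hκβ
  have h2 : t * (1 - t) * d.re + t ^ 2 * γ ^ 2 =
      ρ ^ 2 * ((1 - t) * ((1 - t) + t * c)) + τ ^ 2 * (t * (t + (1 - t) * c)) := by
    linear_combination t * f4 + (1 - t) * ρ * f2r + (1 - t) * κ * g2 +
      τ * (t + (1 - t) * c) * hκ2
  have h3 : (ρ * ((1 - t) * c + t)) ^ 2 + (τ * (t * c + (1 - t))) ^ 2 ≤
      (1 - c ^ 2) * ((1 - t) ^ 2 * α ^ 2) := by
    rw [← f1r, ← g1]
    have : 0 ≤ (1 - t) ^ 2 := by positivity
    nlinarith
  have h4 := real_core hc0 hc1 ht0 ht1 h1 h2 h3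
  have hc2 : 0 < 1 + c ^ 2 := by positivity
  have hc3 : 0 < 1 + c := by positivity
  have h5 : t * (1 - t) * (d.re - (m.re * n.re + m.im * n.im) / (1 + c)) =
      t * (1 - t) * d.re - (ρ ^ 2 + τ ^ 2) * (((1 - t) * c + t) * ((1 - t) + t * c)) / (1 + c) := by
    have h6 : (1 - t) * m.re * (t * n.re) + (1 - t) * m.im * (t * n.im) =
        (ρ ^ 2 + τ ^ 2) * (((1 - t) * c + t) * ((1 - t) + t * c)) := by
      rw [f1r, f2r, g1, g2]
      ring
    rw [← h6]
    ring
  have h7 : c / (1 + c ^ 2) * (2 * (t * (1 - t)) * (α * γ)) ≤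
      c / (1 + c ^ 2) * ((1 - t) ^ 2 * α ^ 2 + t ^ 2 * γ ^ 2) := by
    apply mul_le_mul_of_nonneg_left _ (by positivity)
    nlinarith [sq_nonneg ((1 - t) * α - t * γ)]
  have h8 : t * (1 - t) * (d.re - (m.re * n.re + m.im * n.im) / (1 + c)) ≤
      t * (1 - t) * (-(2 * c / (1 + c ^ 2) * (α * γ))) := by
    rw [h5]
    refine h4.trans ((neg_le_neg h7).trans (le_of_eq ?_))
    ring
  exact le_of_mul_le_mul_left h8 (by positivity)

end Pool.Agent.L7h45.PI
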